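import Pool.Agent.Lib.MP_15d71b_an.Sq.A7
import Pool.Agent.Lib.MP_15d71b_an.E9

/-!
# ESA sequences, file A8: the unconditional core theorem for the zero-sum block spaces (helper72)
-/

set_option autoImplicit false
set_option linter.unusedSectionVars false

namespace Pool.Agent.Lib.MP_15d71b_an.Sq

open Finset Filter Topology
open Pool.Agent.MP_15d71b_an (zeroSumSpace bidx bidx_spec Rop Rop_e mem_zeroSumSpace)

variable {X : Type} [NormedAddCommGroup X] [NormedSpace ℝ X] [CompleteSpace X] {e : ℕ → X}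

/-- The tails separate the points. -/
theorem eq_zero_of_t (D : Dat e) {y : X} (h : ∀ m, t e m y = 0) : y = 0 := by
  have h1 := norm_le_of_t D (y := y) (b := fun _ => 0) summable_zero
    (fun m => by rw [h m, norm_zero])
  rw [tsum_zero, mul_zero] at h1
  exact norm_le_zero_iff.1 h1

theorem mem_ker_Mo (D : Dat e) {k : ℕ → ℕ} (hk : StrictMono k) (y : X) :
    y ∈ LinearMap.ker (Mo e k hk).toLinearMap ↔ ∀ m, t e (k m) y = 0 := by
  rw [LinearMap.mem_ker]
  constructor
  · intro h m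
    have h1 : Mo e k hk y = 0 := h
    rw [← t_Mo D hk, h1, map_zero]
  · intro h
    show Mo e k hk y = 0
    refine eq_zero_of_t D fun m => ?_
    rw [t_Mo D hk, h]

theorem mem_zs (h : Pool.Agent.MP_15d71b_an.ESA e) {τ : ℕ → ℕ} (hτ : StrictMono τ) (h0 : τ 0 = 0)
    (x : X) : x ∈ zeroSumSpace e τ ↔ ∀ m, t e (τ m) x = 0 := by
  have D := Dat.of_esa h
  have h1 : ∀ m, (t e m).comp (Rop h hτ h0) = t e (τ m) := by
    intro m
    apply ext_e D
    intro i
    rw [ContinuousLinearMap.comp_apply, Rop_e, t_e D, t_e D]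
    obtain ⟨h2, h3⟩ := bidx_spec hτ h0 i
    by_cases h4 : τ m ≤ i
    · rw [if_pos h4, if_pos]
      have h5 : τ m < τ (bidx τ i + 1) := lt_of_le_of_lt h4 h3
      have h6 := hτ.lt_iff_lt.1 h5
      omega
    · rw [if_neg h4, if_neg]
      intro h5
      exact h4 ((hτ.monotone h5).trans h2)
  rw [mem_zeroSumSpace h hτ h0]
  constructor
  · intro h2 m
    rw [← h1 m, ContinuousLinearMap.comp_apply, h2, map_zero]
  · intro h2
    refine eq_zero_of_t D fun m => ?_
    rw [← ContinuousLinearMap.comp_apply, h1, h2]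

/-- The partition `0, k 0 + 1, k 1 + 1, ...`. -/
def ptn (k : ℕ → ℕ) (j : ℕ) : ℕ := if j = 0 then 0 else k (j - 1) + 1

theorem ptn_zero (k : ℕ → ℕ) : ptn k 0 = 0 := by simp [ptn]

theorem ptn_succ (k : ℕ → ℕ) (j : ℕ) : ptn k (j + 1) = k j + 1 := by simp [ptn]

theorem ptn_strictMono {k : ℕ → ℕ} (hk : StrictMono k) : StrictMono (ptn k) := by
  refine strictMono_nat_of_lt_succ fun j => ?_
  rcases Nat.eq_zero_or_pos j with rfl | hj
  · rw [ptn_zero, ptn_succ]
    omega
  · obtain ⟨i, rfl⟩ : ∃ i, j = i + 1 := ⟨j - 1, by omega⟩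
    rw [ptn_succ, ptn_succ]
    have := hk (show i < i + 1 by omega)
    omega

theorem gp_mono (i : ℕ) : Monotone (gp i) := by
  intro a b hab
  simp only [gp]
  split_ifs <;> omega

theorem mg_mono (i : ℕ) : Monotone (mg i) := by
  intro a b hab
  simp only [mg]
  split_ifs <;> omega

/-- Insert the coordinate `q` which makes the sum zero. -/
noncomputable def Fq (e : ℕ → X) (q : ℕ) : X →L[ℝ] X := C e (gp q) - (t e 0).smulRight (e q)

/-- Drop the coordinate `q`. -/
noncomputable def Gq (e : ℕ → X) (q : ℕ) : X →L[ℝ] X :=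
  C e (mg q) - (t e q - t e (q + 1)).smulRight (e q)

theorem Fq_e (D : Dat e) (q i : ℕ) : Fq e q (e i) = e (gp q i) - e q := by
  rw [Fq, sub_apply, ContinuousLinearMap.smulRight_apply, C_e D (gp_mono q), t_e D,
    if_pos (Nat.zero_le i), one_smul]

theorem Gq_e (D : Dat e) (q i : ℕ) : Gq e q (e i) = e (mg q i) - if i = q then e q else 0 := by
  rw [Gq, sub_apply, ContinuousLinearMap.smulRight_apply, C_e D (mg_mono q), sub_apply, t_e D,
    t_e D]
  by_cases h : i = q
  · rw [if_pos h.ge, if_neg (by omega), if_pos h, sub_zero, one_smul]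
  · rw [if_neg h]
    by_cases h2 : q ≤ i
    · rw [if_pos h2, if_pos (by omega), sub_self, zero_smul]
    · rw [if_neg h2, if_neg (by omega), sub_self, zero_smul]

theorem Gq_Fq (D : Dat e) (q : ℕ) (x : X) : Gq e q (Fq e q x) = x := by
  have h : (Gq e q).comp (Fq e q) = ContinuousLinearMap.id ℝ X := by
    apply ext_e D
    intro i
    have h1 : mg q (gp q i) = i := by
      simp only [mg, gp]
      split_ifs <;> omega
    have h2 : gp q i ≠ q := by
      simp only [gp]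
      split_ifs <;> omega
    have h3 : mg q q = q := by simp [mg]
    rw [ContinuousLinearMap.comp_apply, Fq_e D, map_sub, Gq_e D, Gq_e D, if_neg h2, if_pos rfl, h1,
      h3, sub_self, sub_zero, sub_zero]
    rfl
  rw [← ContinuousLinearMap.comp_apply, h]
  rfl

theorem Fq_Gq (D : Dat e) (q : ℕ) (x : X) : Fq e q (Gq e q x) = x - t e 0 x • e q := by
  have h : (Fq e q).comp (Gq e q) = ContinuousLinearMap.id ℝ X - (t e 0).smulRight (e q) := by
    apply ext_e D
    intro i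
    rw [ContinuousLinearMap.comp_apply, Gq_e D, map_sub, Fq_e D, sub_apply,
      ContinuousLinearMap.smulRight_apply, t_e D, if_pos (Nat.zero_le i), one_smul]
    by_cases h : i = q
    · rw [if_pos h, Fq_e D, h]
      have h3 : mg q q = q := by simp [mg]
      rw [h3, sub_self]
      simp
    · have h1 : gp q (mg q i) = i := by
        simp only [mg, gp]
        split_ifs <;> omega
      rw [if_neg h, map_zero, sub_zero, h1]
      rfl
  rw [← ContinuousLinearMap.comp_apply, h]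
  rfl

theorem t_Fq (D : Dat e) {q m : ℕ} (hq : q ≤ m) (x : X) : t e (m + 1) (Fq e q x) = t e m x := by
  have h : (t e (m + 1)).comp (Fq e q) = t e m := by
    apply ext_e D
    intro i
    rw [ContinuousLinearMap.comp_apply, Fq_e D, map_sub, t_e D, t_e D, t_e D,
      if_neg (show ¬ m + 1 ≤ q by omega), sub_zero]
    have h1 : m + 1 ≤ gp q i ↔ m ≤ i := by
      simp only [gp]
      split_ifs <;> omega
    by_cases h2 : m ≤ i
    · rw [if_pos h2, if_pos (h1.2 h2)]
    · rw [if_neg h2, if_neg (fun h3 => h2 (h1.1 h3))]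
  rw [← h, ContinuousLinearMap.comp_apply]

theorem t_zero_Fq (D : Dat e) (q : ℕ) (x : X) : t e 0 (Fq e q x) = 0 := by
  have h : (t e 0).comp (Fq e q) = 0 := by
    apply ext_e D
    intro i
    rw [ContinuousLinearMap.comp_apply, Fq_e D, map_sub, t_e D, t_e D, if_pos (Nat.zero_le _),
      if_pos (Nat.zero_le _), sub_self]
    rfl
  rw [← ContinuousLinearMap.comp_apply, h]
  rfl

theorem t_Gq (D : Dat e) {q m : ℕ} (hq : q ≤ m) (x : X) : t e m (Gq e q x) = t e (m + 1) x := by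
  have h : (t e m).comp (Gq e q) = t e (m + 1) := by
    apply ext_e D
    intro i
    rw [ContinuousLinearMap.comp_apply, Gq_e D, map_sub, t_e D, t_e D]
    by_cases h : i = q
    · rw [if_pos h, t_e D, h]
      have h3 : mg q q = q := by simp [mg]
      rw [h3, sub_self, if_neg (by omega)]
    · rw [if_neg h, map_zero, sub_zero]
      have h1 : m ≤ mg q i ↔ m + 1 ≤ i := by
        simp only [mg]
        split_ifs <;> omega
      by_cases h2 : m + 1 ≤ i
      · rw [if_pos h2, if_pos (h1.2 h2)]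
      · rw [if_neg h2, if_neg (fun h3 => h2 (h1.1 h3))]
  rw [← h, ContinuousLinearMap.comp_apply]

/-- **The kernel of a merging operator is a zero-sum block space.** -/
theorem ker_equiv (h : Pool.Agent.MP_15d71b_an.ESA e) {k : ℕ → ℕ} (hk : StrictMono k) :
    Nonempty (LinearMap.ker (Mo e k hk).toLinearMap ≃L[ℝ] zeroSumSpace e (ptn k)) := by
  have D := Dat.of_esa h
  have hkm : ∀ m, k 0 ≤ k m := fun m => hk.monotone (Nat.zero_le m)
  have hzs := mem_zs h (ptn_strictMono hk) (ptn_zero k)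
  have hF : ∀ y : LinearMap.ker (Mo e k hk).toLinearMap,
      ((Fq e (k 0)).comp (LinearMap.ker (Mo e k hk).toLinearMap).subtypeL) y
        ∈ zeroSumSpace e (ptn k) := by
    intro y
    rw [hzs]
    intro m
    show t e (ptn k m) (Fq e (k 0) (y : X)) = 0
    rcases Nat.eq_zero_or_pos m with rfl | hm
    · rw [ptn_zero, t_zero_Fq D]
    · obtain ⟨j, rfl⟩ : ∃ j, m = j + 1 := ⟨m - 1, by omega⟩
      rw [ptn_succ, t_Fq D (hkm j)]
      exact (mem_ker_Mo D hk _).1 y.2 j
  have hG : ∀ z : zeroSumSpace e (ptn k),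
      ((Gq e (k 0)).comp (zeroSumSpace e (ptn k)).subtypeL) z
        ∈ LinearMap.ker (Mo e k hk).toLinearMap := by
    intro z
    rw [mem_ker_Mo D hk]
    intro m
    show t e (k m) (Gq e (k 0) (z : X)) = 0
    rw [t_Gq D (hkm m), ← ptn_succ]
    exact (hzs _).1 z.2 (m + 1)
  refine ⟨ContinuousLinearEquiv.equivOfInverse
    (((Fq e (k 0)).comp (LinearMap.ker (Mo e k hk).toLinearMap).subtypeL).codRestrict _ hF)
    (((Gq e (k 0)).comp (zeroSumSpace e (ptn k)).subtypeL).codRestrict _ hG) ?_ ?_⟩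
  · intro y
    apply Subtype.ext
    show Gq e (k 0) (Fq e (k 0) (y : X)) = (y : X)
    exact Gq_Fq D _ _
  · intro z
    apply Subtype.ext
    show Fq e (k 0) (Gq e (k 0) (z : X)) = (z : X)
    rw [Fq_Gq D]
    have h1 := (hzs _).1 z.2 0
    rw [ptn_zero] at h1
    rw [h1, zero_smul, sub_zero]

/-- Transport of complementary subspaces. -/
theorem transport {K K' : Type} [NormedAddCommGroup K] [NormedSpace ℝ K] [NormedAddCommGroup K']
    [NormedSpace ℝ K'] (Φ : K ≃L[ℝ] K') (W : Submodule ℝ K) :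
    ∃ W' : Submodule ℝ K', (∀ x, x ∈ W' ↔ Φ.symm x ∈ W) ∧ Nonempty (W ≃L[ℝ] W') := by
  refine ⟨W.comap (Φ.symm : K' ≃ₗ[ℝ] K).toLinearMap, fun x => Iff.rfl, ?_⟩
  have hF : ∀ w : W, ((Φ : K →L[ℝ] K').comp W.subtypeL) w
      ∈ W.comap (Φ.symm : K' ≃ₗ[ℝ] K).toLinearMap := by
    intro w
    show Φ.symm (Φ (w : K)) ∈ W
    rw [Φ.symm_apply_apply]
    exact w.2
  have hG : ∀ z : W.comap (Φ.symm : K' ≃ₗ[ℝ] K).toLinearMap, ((Φ.symm : K' →L[ℝ] K).comp
      (W.comap (Φ.symm : K' ≃ₗ[ℝ] K).toLinearMap).subtypeL) z ∈ W := by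
    intro z
    exact z.2
  refine ⟨ContinuousLinearEquiv.equivOfInverse
    (((Φ : K →L[ℝ] K').comp W.subtypeL).codRestrict _ hF)
    (((Φ.symm : K' →L[ℝ] K).comp
      (W.comap (Φ.symm : K' ≃ₗ[ℝ] K).toLinearMap).subtypeL).codRestrict _ hG) ?_ ?_⟩
  · intro w
    apply Subtype.ext
    show Φ.symm (Φ (w : K)) = (w : K)
    exact Φ.symm_apply_apply _
  · intro z
    apply Subtype.ext
    show Φ (Φ.symm (z : K')) = (z : K')
    exact Φ.apply_symm_apply _

/-- **The unconditional core theorem for an ESA basis.** -/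
theorem core_esa (h : Pool.Agent.MP_15d71b_an.ESA e) (Y Z : Submodule ℝ X)
    (hYc : IsClosed (Y : Set X)) (hZc : IsClosed (Z : Set X)) (hYZ : IsCompl Y Z) :
    ∃ τ : ℕ → ℕ, StrictMono τ ∧ τ 0 = 0 ∧ ∃ W V : Submodule ℝ (zeroSumSpace e τ),
      IsClosed (W : Set (zeroSumSpace e τ)) ∧ IsClosed (V : Set (zeroSumSpace e τ)) ∧
      IsCompl W V ∧ ((Nonempty (Y ≃L[ℝ] X × W) ∧ Nonempty (Z ≃L[ℝ] V)) ∨
        (Nonempty (Z ≃L[ℝ] X × W) ∧ Nonempty (Y ≃L[ℝ] V))) := by
  obtain ⟨k, hk, W, V, hW, hV, hWV, hc⟩ := core (Dat.of_esa h) Y Z hYc hZc hYZ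
  obtain ⟨Φ⟩ := ker_equiv h hk
  obtain ⟨W', hW', ⟨φ⟩⟩ := transport Φ W
  obtain ⟨V', hV', ⟨ψ⟩⟩ := transport Φ V
  refine ⟨ptn k, ptn_strictMono hk, ptn_zero k, W', V', ?_, ?_, ?_, ?_⟩
  · have h1 : (W' : Set (zeroSumSpace e (ptn k))) = Φ.symm ⁻¹' (W : Set _) := by
      ext x
      exact hW' x
    rw [h1]
    exact hW.preimage Φ.symm.continuous
  · have h1 : (V' : Set (zeroSumSpace e (ptn k))) = Φ.symm ⁻¹' (V : Set _) := by
      ext x
      exact hV' x
    rw [h1]
    exact hV.preimage Φ.symm.continuous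
  · constructor
    · rw [Submodule.disjoint_def]
      intro x hx1 hx2
      have h1 := (Submodule.disjoint_def.1 hWV.disjoint) _ ((hW' x).1 hx1) ((hV' x).1 hx2)
      rw [← Φ.apply_symm_apply x, h1, map_zero]
    · rw [codisjoint_iff, eq_top_iff]
      intro x _
      have h1 : Φ.symm x ∈ W ⊔ V := by
        rw [hWV.sup_eq_top]
        exact Submodule.mem_top
      obtain ⟨w, hw, v, hv, hwv⟩ := Submodule.mem_sup.1 h1
      refine Submodule.mem_sup.2 ⟨Φ w, (hW' _).2 (by rwa [Φ.symm_apply_apply]), Φ v,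
        (hV' _).2 (by rwa [Φ.symm_apply_apply]), ?_⟩
      rw [← map_add, hwv, Φ.apply_symm_apply]
  · rcases hc with ⟨⟨f⟩, ⟨g⟩⟩ | ⟨⟨f⟩, ⟨g⟩⟩
    · exact Or.inl ⟨⟨f.trans ((ContinuousLinearEquiv.refl ℝ X).prodCongr φ)⟩, ⟨g.trans ψ⟩⟩
    · exact Or.inr ⟨⟨f.trans ((ContinuousLinearEquiv.refl ℝ X).prodCongr φ)⟩, ⟨g.trans ψ⟩⟩

end Pool.Agent.Lib.MP_15d71b_an.Sq
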