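import Mathlib

/-!
# ESA sequences, file A1: gaps, merging, strictly monotone spreads (helper72)
-/

set_option autoImplicit false

namespace Pool.Agent.Lib.MP_15d71b_an.Sq

open Finset Filter Topology

variable {X : Type} [NormedAddCommGroup X] [NormedSpace ℝ X]

/-- The ESA axiom, verbatim. -/
def ESA (e : ℕ → X) : Prop :=
  ∀ (a : ℕ → ℝ) (N k : ℕ), k + 1 < N → 0 ≤ a k * a (k + 1) →
    ‖∑ i ∈ Finset.range k, a i • e i + (a k + a (k + 1)) • e k
        + ∑ i ∈ Finset.Ico (k + 2) N, a i • e (i - 1)‖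
      = ‖∑ i ∈ Finset.range N, a i • e i‖

/-- The vector `∑ x i • e i`. -/
noncomputable def L (e : ℕ → X) : (ℕ →₀ ℝ) →ₗ[ℝ] X := Finsupp.linearCombination ℝ e

theorem L_single (e : ℕ → X) (i : ℕ) (a : ℝ) : L e (Finsupp.single i a) = a • e i := by
  simp [L]

theorem L_map (e : ℕ → X) (f : ℕ → ℕ) (x : ℕ →₀ ℝ) :
    L e (x.mapDomain f) = L (fun i => e (f i)) x := by
  simp only [L]
  rw [Finsupp.linearCombination_mapDomain]
  rfl

theorem L_eq_sum (e : ℕ → X) (x : ℕ →₀ ℝ) (N : ℕ) (h : ∀ i, N ≤ i → x i = 0) :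
    L e x = ∑ i ∈ range N, x i • e i := by
  simp only [L, Finsupp.linearCombination_apply]
  rw [Finsupp.sum_of_support_subset x (s := range N)]
  · intro i hi
    rw [mem_range]
    by_contra hc
    exact (Finsupp.mem_support_iff.1 hi) (h i (not_lt.1 hc))
  · intro i _
    exact zero_smul _ _

theorem exists_bound (x : ℕ →₀ ℝ) : ∃ N, ∀ i, N ≤ i → x i = 0 := by
  refine ⟨x.support.sup id + 1, fun i hi => ?_⟩
  by_contra hc
  have h1 : i ∈ x.support := Finsupp.mem_support_iff.2 hc
  have h2 : id i ≤ x.support.sup id := Finset.le_sup h1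
  simp only [id_eq] at h2
  omega

/-- Merge the coordinates `k` and `k + 1`. -/
def mg (k i : ℕ) : ℕ := if i ≤ k then i else i - 1

/-- Insert a gap at position `i`. -/
def gp (i j : ℕ) : ℕ := if j < i then j else j + 1

theorem norm_mg {e : ℕ → X} (he : ESA e) (x : ℕ →₀ ℝ) (k : ℕ) (h : 0 ≤ x k * x (k + 1)) :
    ‖L e (x.mapDomain (mg k))‖ = ‖L e x‖ := by
  obtain ⟨N0, hN0⟩ := exists_bound x
  obtain ⟨N, hN⟩ : ∃ N, N = max N0 (k + 2) := ⟨_, rfl⟩
  have hN1 : ∀ i, N ≤ i → x i = 0 := fun i hi => hN0 i (le_trans (by rw [hN]; exact le_max_left _ _) hi)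
  have hkN : k + 2 ≤ N := by rw [hN]; exact le_max_right _ _
  have h1 := he (fun i => x i) N k (by omega) h
  rw [L_eq_sum e x N hN1, ← h1, L_map, L_eq_sum _ x N hN1]
  congr 1
  rw [← Finset.sum_range_add_sum_Ico _ (show k ≤ N by omega),
    Finset.sum_eq_sum_Ico_succ_bot (show k < N by omega),
    Finset.sum_eq_sum_Ico_succ_bot (show k + 1 < N by omega)]
  have e1 : ∑ i ∈ range k, x i • e (mg k i) = ∑ i ∈ range k, x i • e i := by
    refine Finset.sum_congr rfl fun i hi => ?_
    rw [mem_range] at hi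
    simp only [mg, if_pos hi.le]
  have e2 : ∑ i ∈ Ico (k + 1 + 1) N, x i • e (mg k i) = ∑ i ∈ Ico (k + 2) N, x i • e (i - 1) := by
    refine Finset.sum_congr rfl fun i hi => ?_
    rw [Finset.mem_Ico] at hi
    simp only [mg, if_neg (show ¬ i ≤ k by omega)]
  have e3 : mg k k = k := by simp [mg]
  have e4 : mg k (k + 1) = k := by simp [mg]
  rw [e1, e2, e3, e4, add_smul]
  abel

theorem gp_injective (i : ℕ) : Function.Injective (gp i) := by
  intro a b h
  simp only [gp] at h
  split_ifs at h <;> omega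

theorem norm_gp {e : ℕ → X} (he : ESA e) (x : ℕ →₀ ℝ) (i : ℕ) :
    ‖L e (x.mapDomain (gp i))‖ = ‖L e x‖ := by
  have h0 : (x.mapDomain (gp i)) i = 0 := by
    apply Finsupp.mapDomain_of_notMem_range
    rintro ⟨j, hj⟩
    simp only [gp] at hj
    split_ifs at hj <;> omega
  have h1 := norm_mg he (x.mapDomain (gp i)) (i - 1) (by
    rcases Nat.eq_zero_or_pos i with rfl | hi
    · rw [show (0 : ℕ) - 1 = 0 from rfl, h0, zero_mul]
    · rw [show i - 1 + 1 = i by omega, h0, mul_zero])
  have h2 : mg (i - 1) ∘ gp i = id := by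
    funext j
    simp only [mg, gp, Function.comp_apply, id_eq]
    split_ifs <;> omega
  rw [← h1, ← Finsupp.mapDomain_comp, h2, Finsupp.mapDomain_id]

theorem norm_strictMono_aux {e : ℕ → X} (he : ESA e) (m : ℕ) :
    ∀ (f : ℕ → ℕ) (x : ℕ →₀ ℝ) (n : ℕ), StrictMono f → (∀ i, n < i → x i = 0) → f n ≤ n + m →
      ‖L e (x.mapDomain f)‖ = ‖L e x‖ := by
  induction m with
  | zero =>
    intro f x n hf hx hfn
    congr 2
    conv_rhs => rw [← Finsupp.mapDomain_id (v := x)]
    apply Finsupp.mapDomain_congr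
    intro j hj
    have hjn : j ≤ n := by
      by_contra hc
      exact (Finsupp.mem_support_iff.1 hj) (hx j (not_le.1 hc))
    have h1 : ∀ d, f j + d ≤ f (j + d) := by
      intro d
      induction d with
      | zero => exact le_rfl
      | succ d ih =>
        have := hf (show j + d < j + d + 1 by omega)
        rw [show j + (d + 1) = j + d + 1 by omega]
        omega
    have h2 := h1 (n - j)
    rw [show j + (n - j) = n by omega] at h2
    have h3 := hf.id_le j
    simp only [id_eq] at h3 ⊢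
    omega
  | succ m ih =>
    intro f x n hf hx hfn
    by_cases hle : f n ≤ n + m
    · exact ih f x n hf hx hle
    have hne : ∃ i, f i ≠ i := ⟨n, by omega⟩
    classical
    obtain ⟨i, hi⟩ : ∃ i, i = Nat.find hne := ⟨_, rfl⟩
    have hi1 : f i ≠ i := by rw [hi]; exact Nat.find_spec hne
    have hi2 : ∀ j, j < i → f j = j := by
      intro j hj
      rw [hi] at hj
      exact not_not.1 (Nat.find_min hne hj)
    have hin : i ≤ n := by
      rw [hi]
      exact Nat.find_min' hne (by omega)
    have hfi : i + 1 ≤ f i := by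
      have := hf.id_le i
      simp only [id_eq] at this
      omega
    have hge : ∀ j, i ≤ j → i + 1 ≤ f j := fun j hj => le_trans hfi (hf.monotone hj)
    obtain ⟨f', hf'⟩ : ∃ f' : ℕ → ℕ, f' = fun j => if j < i then f j else f j - 1 := ⟨_, rfl⟩
    have hcomp : f = gp i ∘ f' := by
      funext j
      simp only [Function.comp_apply, hf', gp]
      by_cases hj : j < i
      · rw [if_pos hj, hi2 j hj, if_pos hj]
      · rw [if_neg hj, if_neg (by have := hge j (not_lt.1 hj); omega)]
        have := hge j (not_lt.1 hj)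
        omega
    have hmono : StrictMono f' := by
      intro a b hab
      simp only [hf']
      have := hf hab
      by_cases ha : a < i
      · rw [if_pos ha, hi2 a ha]
        by_cases hb : b < i
        · rw [if_pos hb, hi2 b hb]; exact hab
        · rw [if_neg hb]; have := hge b (not_lt.1 hb); omega
      · rw [if_neg ha, if_neg (by omega)]
        have := hge a (not_lt.1 ha)
        omega
    rw [hcomp, Finsupp.mapDomain_comp, norm_gp he]
    refine ih f' x n hmono hx ?_
    simp only [hf']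
    rw [if_neg (by omega)]
    omega

/-- Spreads are isometric. -/
theorem norm_strictMono {e : ℕ → X} (he : ESA e) {f : ℕ → ℕ} (hf : StrictMono f) (x : ℕ →₀ ℝ) :
    ‖L e (x.mapDomain f)‖ = ‖L e x‖ := by
  obtain ⟨n, hn⟩ := exists_bound x
  exact norm_strictMono_aux he (f n) f x n hf (fun i hi => hn i hi.le) (by omega)

theorem norm_e {e : ℕ → X} (he : ESA e) (j : ℕ) : ‖e j‖ = ‖e 0‖ := by
  have h := norm_strictMono he (f := fun i => i + j) (fun a b h => by simpa using h)
    (Finsupp.single 0 1)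
  rw [Finsupp.mapDomain_single, L_single, L_single, one_smul, one_smul, zero_add] at h
  exact h

end Pool.Agent.Lib.MP_15d71b_an.Sq
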