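import Pool.Agent.Lib.MP_15d71b_an.Sq.A1

/-!
# ESA sequences, file A2: merging any two coefficients is contractive; monotone maps (helper72)
-/

set_option autoImplicit false

namespace Pool.Agent.Lib.MP_15d71b_an.Sq

open Finset Filter Topology

variable {X : Type} [NormedAddCommGroup X] [NormedSpace ℝ X]

/-- Make room for `M` positions after `k`. -/
def th (k M j : ℕ) : ℕ := if j ≤ k then j else j + M

theorem th_zero (k : ℕ) : th k 0 = id := by
  funext j
  simp [th]

/-- Merging a block of coefficients of one sign. -/
theorem norm_block {e : ℕ → X} (he : ESA e) (k M : ℕ) :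
    ∀ (c t : ℝ) (z : ℕ →₀ ℝ), z k = 0 → 0 ≤ t * c →
      ‖L e (z.mapDomain (th k M)) + t • e k + ∑ i ∈ range M, c • e (k + 1 + i)‖
        = ‖L e z + (t + M * c) • e k‖ := by
  induction M with
  | zero =>
    intro c t z _ _
    rw [th_zero, Finsupp.mapDomain_id]
    simp
  | succ M ih =>
    intro c t z hz htc
    obtain ⟨y, hy⟩ : ∃ y : ℕ →₀ ℝ, y = z.mapDomain (th k (M + 1)) + Finsupp.single k t
        + ∑ i ∈ range (M + 1), Finsupp.single (k + 1 + i) c := ⟨_, rfl⟩
    have hLy : L e y = L e (z.mapDomain (th k (M + 1))) + t • e k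
        + ∑ i ∈ range (M + 1), c • e (k + 1 + i) := by
      rw [hy, map_add, map_add, map_sum, L_single]
      congr 1
      exact Finset.sum_congr rfl fun i _ => L_single e _ _
    have hthk : (z.mapDomain (th k (M + 1))) k = 0 := by
      have h1 : th k (M + 1) k = k := by simp [th]
      have h2 : Function.Injective (th k (M + 1)) := by
        intro a b hab
        simp only [th] at hab
        split_ifs at hab <;> omega
      rw [show (z.mapDomain (th k (M + 1))) k = (z.mapDomain (th k (M + 1))) (th k (M + 1) k) by rw [h1],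
        Finsupp.mapDomain_apply h2, hz]
    have hthk1 : (z.mapDomain (th k (M + 1))) (k + 1) = 0 := by
      apply Finsupp.mapDomain_of_notMem_range
      rintro ⟨j, hj⟩
      simp only [th] at hj
      split_ifs at hj <;> omega
    have hsum : ∀ q, (∑ i ∈ range (M + 1), Finsupp.single (k + 1 + i) c : ℕ →₀ ℝ) q
        = ∑ i ∈ range (M + 1), if k + 1 + i = q then c else 0 := by
      intro q
      rw [Finsupp.finsetSum_apply]
      exact Finset.sum_congr rfl fun i _ => by rw [Finsupp.single_apply]
    have hyk : y k = t := by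
      rw [hy, Finsupp.add_apply, Finsupp.add_apply, hthk, hsum, Finsupp.single_eq_same,
        Finset.sum_eq_zero (fun i _ => if_neg (by omega))]
      ring
    have hyk1 : y (k + 1) = c := by
      rw [hy, Finsupp.add_apply, Finsupp.add_apply, hthk1, hsum,
        Finsupp.single_eq_of_ne (by omega), Finset.sum_range_succ',
        Finset.sum_eq_zero (fun i _ => if_neg (by omega)), if_pos (by omega)]
      ring
    have h1 := norm_mg he y k (by rw [hyk, hyk1]; exact htc)
    rw [hLy] at h1
    rw [← h1]
    have hmap : y.mapDomain (mg k) = z.mapDomain (th k M) + Finsupp.single k (t + c)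
        + ∑ i ∈ range M, Finsupp.single (k + 1 + i) c := by
      rw [hy, Finsupp.mapDomain_add, Finsupp.mapDomain_add, Finsupp.mapDomain_single,
        Finsupp.mapDomain_finsetSum, Finset.sum_range_succ']
      have e1 : (z.mapDomain (th k (M + 1))).mapDomain (mg k) = z.mapDomain (th k M) := by
        rw [← Finsupp.mapDomain_comp]
        congr 1
        funext j
        simp only [th, mg, Function.comp_apply]
        split_ifs <;> omega
      have e2 : mg k k = k := by simp [mg]
      have e3 : ∀ i, mg k (k + 1 + (i + 1)) = k + 1 + i := by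
        intro i
        simp only [mg]
        rw [if_neg (by omega)]
        omega
      have e4 : mg k (k + 1 + 0) = k := by simp [mg]
      rw [e1, e2, Finsupp.mapDomain_single, e4, Finsupp.single_add]
      have e5 : ∑ i ∈ range M, (Finsupp.single (k + 1 + (i + 1)) c : ℕ →₀ ℝ).mapDomain (mg k)
          = ∑ i ∈ range M, Finsupp.single (k + 1 + i) c :=
        Finset.sum_congr rfl fun i _ => by rw [Finsupp.mapDomain_single, e3]
      rw [e5]
      abel
    have hL2 : L e (y.mapDomain (mg k)) = L e (z.mapDomain (th k M)) + (t + c) • e k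
        + ∑ i ∈ range M, c • e (k + 1 + i) := by
      rw [hmap, map_add, map_add, map_sum, L_single]
      congr 1
      exact Finset.sum_congr rfl fun i _ => L_single e _ _
    rw [hL2, ih c (t + c) z hz (by nlinarith [mul_self_nonneg c])]
    congr 3
    push_cast
    ring

/-- The spread used in the averaging argument. -/
def hh (k N i j : ℕ) : ℕ := if j < k then j else if j = k then k + i else if j = k + 1 then k + 1 + i
  else j - 1 + N

/-- **Merging two adjacent coefficients is contractive.** -/
theorem norm_mg_le {e : ℕ → X} (he : ESA e) (x : ℕ →₀ ℝ) (k : ℕ) :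
    ‖L e (x.mapDomain (mg k))‖ ≤ ‖L e x‖ := by
  obtain ⟨α, hα⟩ : ∃ α, α = x k := ⟨_, rfl⟩
  obtain ⟨β, hβ⟩ : ∃ β, β = x (k + 1) := ⟨_, rfl⟩
  obtain ⟨x', hx'⟩ : ∃ x' : ℕ →₀ ℝ, x' = (x.erase k).erase (k + 1) := ⟨_, rfl⟩
  have hx : x = x' + Finsupp.single k α + Finsupp.single (k + 1) β := by
    ext j
    rw [hx', hα, hβ, Finsupp.add_apply, Finsupp.add_apply]
    by_cases h1 : j = k + 1
    · subst h1
      rw [Finsupp.erase_same, Finsupp.single_eq_of_ne (by omega), Finsupp.single_eq_same]
      ring
    · by_cases h2 : j = k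
      · subst h2
        rw [Finsupp.erase_ne (by omega), Finsupp.erase_same, Finsupp.single_eq_same,
          Finsupp.single_eq_of_ne (by omega)]
        ring
      · rw [Finsupp.erase_ne h1, Finsupp.erase_ne h2, Finsupp.single_eq_of_ne (by omega),
          Finsupp.single_eq_of_ne (by omega)]
        ring
  have hx'k : x' k = 0 := by rw [hx', Finsupp.erase_ne (by omega), Finsupp.erase_same]
  have hx'k1 : x' (k + 1) = 0 := by rw [hx', Finsupp.erase_same]
  obtain ⟨z, hzdef⟩ : ∃ z : ℕ →₀ ℝ, z = x'.mapDomain (mg k) := ⟨_, rfl⟩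
  have hzk : z k = 0 := by
    rw [hzdef, Finsupp.mapDomain, Finsupp.sum_apply]
    apply Finset.sum_eq_zero
    intro j hj
    have hj0 := Finsupp.mem_support_iff.1 hj
    apply Finsupp.single_eq_of_ne
    simp only [mg]
    intro hc
    split_ifs at hc with h1
    · exact hj0 (by rw [← hc]; exact hx'k)
    · exact hj0 (by rw [show j = k + 1 by omega]; exact hx'k1)
  have hmg : x.mapDomain (mg k) = z + Finsupp.single k (α + β) := by
    conv_lhs => rw [hx]
    rw [Finsupp.mapDomain_add, Finsupp.mapDomain_add, Finsupp.mapDomain_single,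
      Finsupp.mapDomain_single, ← hzdef, show mg k k = k by simp [mg],
      show mg k (k + 1) = k by simp [mg], Finsupp.single_add, add_assoc]
  have hLmg : L e (x.mapDomain (mg k)) = L e z + (α + β) • e k := by
    rw [hmg, map_add, L_single]
  rw [hLmg]
  -- the estimate for every `N`
  have key : ∀ N : ℕ, 0 < N → ‖L e z + (α + β) • e k‖ ≤ ‖L e x‖ + 2 * |α| * ‖e 0‖ * (1 / N) := by
    intro N hN
    have hNR : (0 : ℝ) < N := by exact_mod_cast hN
    have hvec : ∀ i, i < N → ‖L e (z.mapDomain (th k N)) + α • e (k + i) + β • e (k + 1 + i)‖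
        = ‖L e x‖ := by
      intro i hi
      have hs : StrictMono (hh k N i) := by
        intro a b hab
        simp only [hh]
        split_ifs <;> omega
      rw [← norm_strictMono he hs x]
      congr 1
      conv_rhs => rw [hx]
      rw [Finsupp.mapDomain_add, Finsupp.mapDomain_add, Finsupp.mapDomain_single,
        Finsupp.mapDomain_single, map_add, map_add, L_single, L_single,
        show hh k N i k = k + i by simp [hh], show hh k N i (k + 1) = k + 1 + i by simp [hh]]
      congr 3
      rw [hzdef, ← Finsupp.mapDomain_comp]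
      apply Finsupp.mapDomain_congr
      intro j hj
      have hj0 := Finsupp.mem_support_iff.1 hj
      have hjk : j ≠ k := fun h => hj0 (by rw [h]; exact hx'k)
      have hjk1 : j ≠ k + 1 := fun h => hj0 (by rw [h]; exact hx'k1)
      simp only [hh, th, mg, Function.comp_apply]
      split_ifs <;> omega
    have hB := norm_block he k N ((α + β) / N) 0 z hzk (by rw [zero_mul])
    rw [zero_smul, add_zero, zero_add, mul_div_cancel₀ _ hNR.ne'] at hB
    rw [← hB]
    -- the average
    have havg : (1 / (N : ℝ)) • ∑ i ∈ range N,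
        (L e (z.mapDomain (th k N)) + α • e (k + i) + β • e (k + 1 + i))
        = (L e (z.mapDomain (th k N)) + ∑ i ∈ range N, ((α + β) / N) • e (k + 1 + i))
          + (α / N) • (e k - e (k + N)) := by
      have htel : ∑ i ∈ range N, e (k + i) = ∑ i ∈ range N, e (k + 1 + i) + (e k - e (k + N)) := by
        have h1 := Finset.sum_range_succ (fun i => e (k + i)) N
        have h2 := Finset.sum_range_succ' (fun i => e (k + i)) N
        have h3 : ∑ i ∈ range N, e (k + (i + 1)) = ∑ i ∈ range N, e (k + 1 + i) :=
          Finset.sum_congr rfl fun i _ => by rw [show k + (i + 1) = k + 1 + i by omega]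
        rw [h3, add_zero] at h2
        rw [h1] at h2
        have : ∑ i ∈ range N, e (k + i) = ∑ i ∈ range N, e (k + 1 + i) + e k - e (k + N) := by
          rw [← h2]; abel
        rw [this]; abel
      rw [Finset.sum_add_distrib, Finset.sum_add_distrib, Finset.sum_const, card_range,
        ← Finset.smul_sum, ← Finset.smul_sum, htel, ← Finset.smul_sum]
      rw [← Nat.cast_smul_eq_nsmul ℝ]
      have hN1 : (N : ℝ) ≠ 0 := hNR.ne'
      simp only [smul_add, smul_smul]
      rw [show 1 / (N : ℝ) * N = 1 by field_simp, one_smul,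
        show 1 / (N : ℝ) * α = α / N by ring, show 1 / (N : ℝ) * β = β / N by ring,
        show (α + β) / (N : ℝ) = α / N + β / N by ring, add_smul]
      abel
    have hle1 : ‖(1 / (N : ℝ)) • ∑ i ∈ range N,
        (L e (z.mapDomain (th k N)) + α • e (k + i) + β • e (k + 1 + i))‖ ≤ ‖L e x‖ := by
      rw [norm_smul, Real.norm_of_nonneg (by positivity)]
      have h1 : ‖∑ i ∈ range N,
          (L e (z.mapDomain (th k N)) + α • e (k + i) + β • e (k + 1 + i))‖ ≤ N * ‖L e x‖ := by
        refine (norm_sum_le _ _).trans ?_
        rw [Finset.sum_congr rfl (fun i hi => hvec i (mem_range.1 hi)), Finset.sum_const, card_range,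
          nsmul_eq_mul]
      calc 1 / (N : ℝ) * _ ≤ 1 / (N : ℝ) * (N * ‖L e x‖) :=
            mul_le_mul_of_nonneg_left h1 (by positivity)
        _ = ‖L e x‖ := by field_simp
    rw [havg] at hle1
    have hle2 : ‖(α / (N : ℝ)) • (e k - e (k + N))‖ ≤ 2 * |α| * ‖e 0‖ * (1 / N) := by
      rw [norm_smul, Real.norm_eq_abs, abs_div, abs_of_pos hNR]
      have h1 : ‖e k - e (k + N)‖ ≤ 2 * ‖e 0‖ := by
        refine (norm_sub_le _ _).trans ?_
        rw [norm_e he, norm_e he (k + N)]
        linarith
      calc |α| / N * ‖e k - e (k + N)‖ ≤ |α| / N * (2 * ‖e 0‖) :=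
            mul_le_mul_of_nonneg_left h1 (by positivity)
        _ = 2 * |α| * ‖e 0‖ * (1 / N) := by ring
    have h3 := norm_sub_norm_le (L e (z.mapDomain (th k N)) + ∑ i ∈ range N, ((α + β) / N) • e (k + 1 + i))
      (-((α / (N : ℝ)) • (e k - e (k + N))))
    rw [sub_neg_eq_add, norm_neg] at h3
    linarith
  have hlim : Tendsto (fun N : ℕ => ‖L e x‖ + 2 * |α| * ‖e 0‖ * (1 / (N : ℝ))) atTop
      (𝓝 (‖L e x‖ + 2 * |α| * ‖e 0‖ * 0)) :=
    tendsto_const_nhds.add (tendsto_const_nhds.mul tendsto_one_div_atTop_nhds_zero_nat)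
  rw [mul_zero, add_zero] at hlim
  exact ge_of_tendsto hlim (by filter_upwards [eventually_gt_atTop 0] with N hN using key N hN)

theorem norm_mono_aux {e : ℕ → X} (he : ESA e) (m : ℕ) :
    ∀ (f : ℕ → ℕ) (x : ℕ →₀ ℝ) (n : ℕ), Monotone f → (∀ i, n < i → x i = 0) → n + f n ≤ m →
      ‖L e (x.mapDomain f)‖ ≤ ‖L e x‖ := by
  induction m with
  | zero =>
    intro f x n hf hx hm
    apply le_of_eq
    congr 2
    conv_rhs => rw [← Finsupp.mapDomain_id (v := x)]
    apply Finsupp.mapDomain_congr
    intro j hj
    have hjn : j ≤ n := by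
      by_contra hc
      exact (Finsupp.mem_support_iff.1 hj) (hx j (not_le.1 hc))
    have h2 := hf hjn
    simp only [id_eq]
    omega
  | succ m ih =>
    intro f x n hf hx hm
    by_cases hall : ∀ j, j ≤ n → f j = j
    · apply le_of_eq
      congr 2
      conv_rhs => rw [← Finsupp.mapDomain_id (v := x)]
      apply Finsupp.mapDomain_congr
      intro j hj
      have hjn : j ≤ n := by
        by_contra hc
        exact (Finsupp.mem_support_iff.1 hj) (hx j (not_le.1 hc))
      exact hall j hjn
    push Not at hall
    obtain ⟨j0, hj0, hj1⟩ := hall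
    have hne : ∃ i, f i ≠ i := ⟨j0, hj1⟩
    classical
    obtain ⟨i, hi⟩ : ∃ i, i = Nat.find hne := ⟨_, rfl⟩
    have hi1 : f i ≠ i := by rw [hi]; exact Nat.find_spec hne
    have hi2 : ∀ j, j < i → f j = j := by
      intro j hj
      rw [hi] at hj
      exact not_not.1 (Nat.find_min hne hj)
    have hin : i ≤ n := by
      rw [hi]
      exact (Nat.find_min' hne hj1).trans hj0
    rcases Nat.lt_or_gt_of_ne hi1 with hlt | hgt
    · -- merge
      have hipos : 1 ≤ i := by omega
      have h1 : f (i - 1) = i - 1 := hi2 (i - 1) (by omega)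
      have h2 : f (i - 1) ≤ f i := hf (by omega)
      have hfi : f i = i - 1 := by omega
      obtain ⟨f', hf'⟩ : ∃ f' : ℕ → ℕ, f' = fun j => if j ≤ i - 1 then f j else f (j + 1) := ⟨_, rfl⟩
      have hcomp : f = f' ∘ mg (i - 1) := by
        funext j
        simp only [Function.comp_apply, hf', mg]
        by_cases hj : j ≤ i - 1
        · rw [if_pos hj, if_pos hj]
        · rw [if_neg hj]
          by_cases hj2 : j = i
          · subst hj2
            rw [if_pos le_rfl, hfi, h1]
          · rw [if_neg (by omega), show j - 1 + 1 = j by omega]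
      have hmono : Monotone f' := by
        intro a b hab
        simp only [hf']
        split_ifs
        · exact hf hab
        · exact hf (by omega)
        · omega
        · exact hf (by omega)
      have hsupp : ∀ j, n - 1 < j → (x.mapDomain (mg (i - 1))) j = 0 := by
        intro j hj
        rw [Finsupp.mapDomain, Finsupp.sum_apply]
        apply Finset.sum_eq_zero
        intro q hq
        have hq0 := Finsupp.mem_support_iff.1 hq
        have hqn : q ≤ n := by
          by_contra hc
          exact hq0 (hx q (not_le.1 hc))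
        apply Finsupp.single_eq_of_ne
        simp only [mg]
        split_ifs <;> omega
      rw [hcomp, Finsupp.mapDomain_comp]
      refine (ih f' (x.mapDomain (mg (i - 1))) (n - 1) hmono hsupp ?_).trans (norm_mg_le he x (i - 1))
      simp only [hf']
      split_ifs
      · have := hf (show n - 1 ≤ n by omega)
        omega
      · rw [show n - 1 + 1 = n by omega]
        omega
    · -- gap
      have hge : ∀ j, i ≤ j → i + 1 ≤ f j := fun j hj => le_trans hgt (hf hj)
      obtain ⟨f', hf'⟩ : ∃ f' : ℕ → ℕ, f' = fun j => if j < i then f j else f j - 1 := ⟨_, rfl⟩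
      have hcomp : f = gp i ∘ f' := by
        funext j
        simp only [Function.comp_apply, hf', gp]
        by_cases hj : j < i
        · rw [if_pos hj, hi2 j hj, if_pos hj]
        · rw [if_neg hj, if_neg (by have := hge j (not_lt.1 hj); omega)]
          have := hge j (not_lt.1 hj)
          omega
      have hmono : Monotone f' := by
        intro a b hab
        simp only [hf']
        have := hf hab
        by_cases ha : a < i
        · rw [if_pos ha, hi2 a ha]
          by_cases hb : b < i
          · rw [if_pos hb, hi2 b hb]; exact hab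
          · rw [if_neg hb]; have := hge b (not_lt.1 hb); omega
        · rw [if_neg ha, if_neg (by omega)]
          omega
      rw [hcomp, Finsupp.mapDomain_comp, norm_gp he]
      refine ih f' x n hmono hx ?_
      simp only [hf']
      rw [if_neg (by omega)]
      have := hge n hin
      omega

/-- **Monotone maps are contractive.** -/
theorem norm_mono {e : ℕ → X} (he : ESA e) {f : ℕ → ℕ} (hf : Monotone f) (x : ℕ →₀ ℝ) :
    ‖L e (x.mapDomain f)‖ ≤ ‖L e x‖ := by
  obtain ⟨n, hn⟩ := exists_bound x
  exact norm_mono_aux he (n + f n) f x n hf (fun i hi => hn i hi.le) le_rfl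

end Pool.Agent.Lib.MP_15d71b_an.Sq
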