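import Pool.Agent.Lib.MP_15d71b_an.Sq.A2
import Mathlib.Analysis.Normed.Operator.Extend

/-!
# ESA sequences, file A3: tail functionals and the operators of monotone maps (helper72)
-/

set_option autoImplicit false
set_option linter.unusedSectionVars false

namespace Pool.Agent.Lib.MP_15d71b_an.Sq

open Finset Filter Topology

variable {X : Type} [NormedAddCommGroup X] [NormedSpace ℝ X]

/-- Tail sums on finitely supported sequences. -/
noncomputable def tl (m : ℕ) : (ℕ →₀ ℝ) →ₗ[ℝ] ℝ :=
  Finsupp.linearCombination ℝ (fun i => if m ≤ i then (1 : ℝ) else 0)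

theorem tl_single (m i : ℕ) (a : ℝ) : tl m (Finsupp.single i a) = if m ≤ i then a else 0 := by
  simp [tl]

theorem L_step (m : ℕ) (u v : X) (x : ℕ →₀ ℝ) :
    L (fun i => if m ≤ i then v else u) x = tl 0 x • u + tl m x • (v - u) := by
  induction x using Finsupp.induction_linear with
  | zero => simp
  | add f g hf hg =>
    rw [map_add, map_add, map_add, hf, hg, add_smul, add_smul]
    abel
  | single i a =>
    rw [L_single, tl_single, tl_single, if_pos (Nat.zero_le _)]
    split_ifs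
    · rw [smul_sub]; abel
    · rw [zero_smul, add_zero]

/-- The constant in the bound of the tail functionals. -/
noncomputable def K0 (e : ℕ → X) : ℝ := 2 / ‖e 1 - e 0‖

theorem K0_nonneg (e : ℕ → X) : 0 ≤ K0 e := div_nonneg (by norm_num) (norm_nonneg _)

theorem abs_tl_le {e : ℕ → X} (he : ESA e) (hne : e 0 ≠ e 1) (m : ℕ) (x : ℕ →₀ ℝ) :
    ‖tl m x‖ ≤ K0 e * ‖L e x‖ := by
  have hpos : 0 < ‖e 1 - e 0‖ := norm_pos_iff.2 (sub_ne_zero.2 hne.symm)
  have hf1 : Monotone (fun i => if m ≤ i then 1 else 0 : ℕ → ℕ) := by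
    intro a b hab
    simp only
    split_ifs <;> omega
  have hf2 : Monotone (fun i => if m ≤ i then 2 else 0 : ℕ → ℕ) := by
    intro a b hab
    simp only
    split_ifs <;> omega
  have h1 := norm_mono he hf1 x
  have h2 := norm_mono he hf2 x
  have e1 : (fun i => e (if m ≤ i then 1 else 0)) = fun i => if m ≤ i then e 1 else e 0 := by
    funext i
    split_ifs <;> rfl
  have e2 : (fun i => e (if m ≤ i then 2 else 0)) = fun i => if m ≤ i then e 2 else e 0 := by
    funext i
    split_ifs <;> rfl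
  rw [L_map, e1, L_step] at h1
  rw [L_map, e2, L_step] at h2
  have h3 : ‖e 2 - e 1‖ = ‖e 1 - e 0‖ := by
    have h := norm_strictMono he (f := fun i => i + 1) (fun a b h => by simpa using h)
      (Finsupp.single 1 1 - Finsupp.single 0 1)
    rw [← Finsupp.mapDomain.addMonoidHom_apply, map_sub, Finsupp.mapDomain.addMonoidHom_apply,
      Finsupp.mapDomain.addMonoidHom_apply, Finsupp.mapDomain_single, Finsupp.mapDomain_single,
      map_sub, map_sub] at h
    simp only [L_single, one_smul] at h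
    exact h
  have h4 : tl m x • (e 2 - e 1) = (tl 0 x • e 0 + tl m x • (e 2 - e 0))
      - (tl 0 x • e 0 + tl m x • (e 1 - e 0)) := by
    rw [smul_sub, smul_sub, smul_sub]; abel
  have h5 : ‖tl m x‖ * ‖e 1 - e 0‖ ≤ 2 * ‖L e x‖ := by
    rw [← h3, ← norm_smul, h4]
    refine (norm_sub_le _ _).trans ?_
    linarith
  rw [K0, div_mul_eq_mul_div, le_div_iff₀ hpos]
  exact h5

/-- The data used everywhere. -/
structure Dat (e : ℕ → X) : Prop where
  esa : ESA e
  dense : DenseRange (L e)
  ne : e 0 ≠ e 1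

variable [CompleteSpace X] {e : ℕ → X}

/-- Tail functionals on the space. -/
noncomputable def t (e : ℕ → X) (m : ℕ) : X →L[ℝ] ℝ := (tl m).extendOfNorm (L e)

theorem t_L (D : Dat e) (m : ℕ) (x : ℕ →₀ ℝ) : t e m (L e x) = tl m x :=
  LinearMap.extendOfNorm_eq D.dense ⟨K0 e, abs_tl_le D.esa D.ne m⟩ x

theorem t_le (D : Dat e) (m : ℕ) (y : X) : ‖t e m y‖ ≤ K0 e * ‖y‖ :=
  LinearMap.norm_extendOfNorm_apply_le D.dense (K0 e) (abs_tl_le D.esa D.ne m) y

theorem t_e (D : Dat e) (m i : ℕ) : t e m (e i) = if m ≤ i then 1 else 0 := by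
  have h := t_L D m (Finsupp.single i 1)
  rw [L_single, one_smul, tl_single] at h
  exact h

/-- Operators of monotone maps. -/
noncomputable def C (e : ℕ → X) (f : ℕ → ℕ) : X →L[ℝ] X :=
  ((L e) ∘ₗ Finsupp.lmapDomain ℝ ℝ f).extendOfNorm (L e)

theorem C_bound (D : Dat e) {f : ℕ → ℕ} (hf : Monotone f) (x : ℕ →₀ ℝ) :
    ‖((L e) ∘ₗ Finsupp.lmapDomain ℝ ℝ f) x‖ ≤ 1 * ‖L e x‖ := by
  rw [one_mul]
  exact norm_mono D.esa hf x

theorem C_L (D : Dat e) {f : ℕ → ℕ} (hf : Monotone f) (x : ℕ →₀ ℝ) :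
    C e f (L e x) = L e (x.mapDomain f) :=
  LinearMap.extendOfNorm_eq D.dense ⟨1, C_bound D hf⟩ x

theorem C_e (D : Dat e) {f : ℕ → ℕ} (hf : Monotone f) (i : ℕ) : C e f (e i) = e (f i) := by
  have h := C_L D hf (Finsupp.single i 1)
  rw [L_single, one_smul, Finsupp.mapDomain_single, L_single, one_smul] at h
  exact h

theorem C_le (D : Dat e) {f : ℕ → ℕ} (hf : Monotone f) (y : X) : ‖C e f y‖ ≤ ‖y‖ := by
  have h := LinearMap.norm_extendOfNorm_apply_le D.dense 1 (C_bound D hf) y
  rwa [one_mul] at h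

/-- Two continuous linear maps which agree on the basis are equal. -/
theorem ext_e {F : Type} [NormedAddCommGroup F] [NormedSpace ℝ F] (D : Dat e) {A B : X →L[ℝ] F}
    (h : ∀ i, A (e i) = B (e i)) : A = B := by
  ext y
  have hL : ∀ x : ℕ →₀ ℝ, A (L e x) = B (L e x) := by
    intro x
    induction x using Finsupp.induction_linear with
    | zero => simp
    | add f g hf hg => rw [map_add, map_add, map_add, hf, hg]
    | single i a => rw [L_single, map_smul, map_smul, h]
  exact D.dense.induction_on y (isClosed_eq A.continuous B.continuous) hL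

/-- An estimate of a functional on finite vectors holds everywhere. -/
theorem le_of_L (D : Dat e) {F : Type} [NormedAddCommGroup F] [NormedSpace ℝ F] {A : X →L[ℝ] F} {c : ℝ}
    (h : ∀ x : ℕ →₀ ℝ, ‖A (L e x)‖ ≤ c * ‖L e x‖) (y : X) : ‖A y‖ ≤ c * ‖y‖ :=
  D.dense.induction_on y (isClosed_le (A.continuous.norm) (continuous_const.mul continuous_norm)) h

/-- The merging map of the intervals `[k m, k (m + 1))`; index `0` is for `[0, k 0)`. -/
noncomputable def ph (k : ℕ → ℕ) (hk : StrictMono k) (i : ℕ) : ℕ :=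
  Nat.find (show ∃ m, i < k m from ⟨i + 1, by have := hk.id_le (i + 1); simp only [id_eq] at this; omega⟩)

theorem lt_ph {k : ℕ → ℕ} (hk : StrictMono k) (i m : ℕ) : m < ph k hk i ↔ k m ≤ i := by
  rw [ph, Nat.lt_find_iff]
  constructor
  · intro h
    exact not_lt.1 (h m le_rfl)
  · intro h j hj hc
    exact absurd (lt_of_lt_of_le hc (hk.monotone hj)) (not_lt.2 h)

theorem ph_mono {k : ℕ → ℕ} (hk : StrictMono k) : Monotone (ph k hk) := by
  intro a b hab
  by_contra hc
  have h1 := (lt_ph hk a (ph k hk b)).1 (not_le.1 hc)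
  exact lt_irrefl _ ((lt_ph hk b (ph k hk b)).2 (h1.trans hab))

/-- The merging operator. -/
noncomputable def Mo (e : ℕ → X) (k : ℕ → ℕ) (hk : StrictMono k) : X →L[ℝ] X :=
  (C e (fun i => i - 1)).comp ((C e (ph k hk)) -
    ((t e 0 - t e 1).comp (C e (ph k hk))).smulRight (e 0))

theorem Mo_e (D : Dat e) {k : ℕ → ℕ} (hk : StrictMono k) (i : ℕ) :
    Mo e k hk (e i) = if k 0 ≤ i then e (ph k hk i - 1) else 0 := by
  have hp : Monotone (fun i : ℕ => i - 1) := fun a b h => Nat.sub_le_sub_right h 1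
  simp only [Mo, ContinuousLinearMap.comp_apply, sub_apply,
    ContinuousLinearMap.smulRight_apply, C_e D (ph_mono hk), t_e D]
  by_cases h : k 0 ≤ i
  · have h1 : 0 < ph k hk i := (lt_ph hk i 0).2 h
    rw [if_pos (Nat.zero_le _), if_pos (by omega), if_pos h, sub_self, zero_smul, sub_zero, C_e D hp]
  · have h1 : ph k hk i = 0 := by
      by_contra hc
      exact h ((lt_ph hk i 0).1 (Nat.pos_of_ne_zero hc))
    rw [h1, if_pos (Nat.zero_le _), if_neg (by omega), if_neg h, sub_zero, one_smul, sub_self, map_zero]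

theorem t_Mo (D : Dat e) {k : ℕ → ℕ} (hk : StrictMono k) (m : ℕ) (y : X) :
    t e m (Mo e k hk y) = t e (k m) y := by
  have h : (t e m).comp (Mo e k hk) = t e (k m) := by
    apply ext_e D
    intro i
    rw [ContinuousLinearMap.comp_apply, Mo_e D hk, t_e D]
    by_cases h : k 0 ≤ i
    · have h1 : 0 < ph k hk i := (lt_ph hk i 0).2 h
      rw [if_pos h, t_e D]
      have h2 := lt_ph hk i m
      by_cases h3 : k m ≤ i
      · rw [if_pos h3, if_pos (by have := h2.2 h3; omega)]
      · rw [if_neg h3, if_neg (by intro hc; exact h3 (h2.1 (by omega)))]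
    · rw [if_neg h, map_zero, if_neg]
      intro hc
      exact h ((hk.monotone (Nat.zero_le m)).trans hc)
  rw [← h, ContinuousLinearMap.comp_apply]

end Pool.Agent.Lib.MP_15d71b_an.Sq
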