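import Pool.Agent.Lib.MP_15d71b_an.Sq.A3

/-!
# ESA sequences, file A4: partial sums, norm bounds from tails, the data from a Schauder basis (helper72)
-/

set_option autoImplicit false
set_option linter.unusedSectionVars false

namespace Pool.Agent.Lib.MP_15d71b_an.Sq

open Finset Filter Topology

variable {X : Type} [NormedAddCommGroup X] [NormedSpace ℝ X] [CompleteSpace X] {e : ℕ → X}

/-- Partial sum operators. -/
noncomputable def Ps (e : ℕ → X) (n : ℕ) : X →L[ℝ] X :=
  ∑ i ∈ range n, (t e i - t e (i + 1)).smulRight (e i)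

theorem Ps_apply (n : ℕ) (y : X) : Ps e n y = ∑ i ∈ range n, (t e i y - t e (i + 1) y) • e i := by
  simp only [Ps, _root_.sum_apply, ContinuousLinearMap.smulRight_apply, sub_apply]

theorem Ps_e (D : Dat e) (n i : ℕ) : Ps e n (e i) = if i < n then e i else 0 := by
  rw [Ps_apply]
  have h : ∀ j, (t e j (e i) - t e (j + 1) (e i)) • e j = if j = i then e i else 0 := by
    intro j
    rw [t_e D, t_e D]
    by_cases h1 : j = i
    · rw [if_pos h1, if_pos h1.le, if_neg (by omega), h1, sub_zero, one_smul]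
    · rw [if_neg h1]
      by_cases h2 : j ≤ i
      · rw [if_pos h2, if_pos (by omega), sub_self, zero_smul]
      · rw [if_neg h2, if_neg (by omega), sub_self, zero_smul]
  rw [Finset.sum_congr rfl fun j _ => h j, Finset.sum_ite_eq']
  simp only [mem_range]

theorem Ps_eq (D : Dat e) (n : ℕ) (y : X) :
    Ps e n y = C e (fun i => min i n) y - t e n y • e n := by
  have hm : Monotone (fun i : ℕ => min i n) := fun a b h => min_le_min_right n h
  have h : Ps e n = C e (fun i => min i n) - (t e n).smulRight (e n) := by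
    apply ext_e D
    intro i
    rw [Ps_e D, sub_apply, ContinuousLinearMap.smulRight_apply, C_e D hm, t_e D]
    by_cases h1 : i < n
    · rw [if_pos h1, if_neg (by omega), zero_smul, sub_zero, min_eq_left h1.le]
    · rw [if_neg h1, if_pos (by omega), one_smul, min_eq_right (by omega), sub_self]
  rw [h, sub_apply, ContinuousLinearMap.smulRight_apply]

/-- The constant of the partial sums. -/
noncomputable def K1 (e : ℕ → X) : ℝ := 1 + K0 e * ‖e 0‖

theorem K1_nonneg (e : ℕ → X) : 0 ≤ K1 e :=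
  add_nonneg zero_le_one (mul_nonneg (K0_nonneg e) (norm_nonneg _))

theorem Ps_le (D : Dat e) (n : ℕ) (y : X) : ‖Ps e n y‖ ≤ K1 e * ‖y‖ := by
  have hm : Monotone (fun i : ℕ => min i n) := fun a b h => min_le_min_right n h
  rw [Ps_eq D]
  refine (norm_sub_le _ _).trans ?_
  rw [norm_smul, norm_e D.esa, K1]
  have h1 := C_le D hm y
  have h2 := mul_le_mul_of_nonneg_right (t_le D n y) (norm_nonneg (e 0))
  nlinarith [h1, h2]

theorem L_eq_Ps (D : Dat e) (x : ℕ →₀ ℝ) (n : ℕ) (h : ∀ i, n ≤ i → x i = 0) :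
    Ps e n (L e x) = L e x := by
  rw [L_eq_sum e x n h, map_sum]
  refine Finset.sum_congr rfl fun i hi => ?_
  rw [map_smul, Ps_e D, if_pos (mem_range.1 hi)]

/-- The norm is controlled by the tails. -/
theorem norm_le_of_t (D : Dat e) {y : X} {b : ℕ → ℝ} (hb : Summable b) (h : ∀ m, ‖t e m y‖ ≤ b m) :
    ‖y‖ ≤ 2 * ‖e 0‖ * ∑' m, b m := by
  have hb0 : ∀ m, 0 ≤ b m := fun m => (norm_nonneg _).trans (h m)
  have hPs : ∀ n, ‖Ps e n y‖ ≤ 2 * ‖e 0‖ * ∑' m, b m := by
    intro n
    rw [Ps_apply]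
    have h1 : ‖∑ i ∈ range n, (t e i y - t e (i + 1) y) • e i‖
        ≤ ∑ i ∈ range n, (b i + b (i + 1)) * ‖e 0‖ := by
      refine norm_sum_le_of_le _ fun i _ => ?_
      rw [norm_smul, norm_e D.esa]
      refine mul_le_mul_of_nonneg_right ?_ (norm_nonneg _)
      exact (norm_sub_le _ _).trans (add_le_add (h i) (h (i + 1)))
    refine h1.trans ?_
    rw [← Finset.sum_mul, Finset.sum_add_distrib]
    have h2 : ∑ i ∈ range n, b i ≤ ∑' m, b m := hb.sum_le_tsum _ fun i _ => hb0 i
    have h3 : ∑ i ∈ range n, b (i + 1) ≤ ∑' m, b m := by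
      have h4 : ∑ i ∈ range n, b (i + 1) ≤ ∑ i ∈ range (n + 1), b i := by
        rw [Finset.sum_range_succ']
        linarith [hb0 0]
      exact h4.trans (hb.sum_le_tsum _ fun i _ => hb0 i)
    nlinarith [norm_nonneg (e 0)]
  refine le_of_forall_pos_le_add fun δ hδ => ?_
  have hK : 0 < 1 + K1 e := by linarith [K1_nonneg e]
  obtain ⟨z, ⟨x, rfl⟩, hz⟩ := Metric.mem_closure_iff.1 (D.dense y) (δ / (1 + K1 e)) (div_pos hδ hK)
  obtain ⟨n, hn⟩ := exists_bound x
  have h1 : y = (y - L e x) + (Ps e n (L e x - y) + Ps e n y) := by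
    rw [map_sub, L_eq_Ps D x n hn]
    abel
  have h2 : ‖y‖ ≤ ‖y - L e x‖ + (‖Ps e n (L e x - y)‖ + ‖Ps e n y‖) := by
    conv_lhs => rw [h1]
    exact (norm_add_le _ _).trans (add_le_add_right (norm_add_le _ _) _)
  rw [dist_eq_norm] at hz
  have h3 := Ps_le D n (L e x - y)
  rw [norm_sub_rev] at h3
  have h4 : ‖y - L e x‖ * (1 + K1 e) ≤ δ := by
    rw [← le_div_iff₀ hK]
    exact hz.le
  have h5 := hPs n
  nlinarith [h2, h3, h4, h5]

/-- Tails tend to zero. -/
theorem t_tendsto (D : Dat e) (y : X) : Tendsto (fun m => t e m y) atTop (𝓝 0) := by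
  rw [Metric.tendsto_atTop]
  intro δ hδ
  have hK : 0 < 1 + K0 e := by linarith [K0_nonneg e]
  obtain ⟨z, ⟨x, rfl⟩, hz⟩ := Metric.mem_closure_iff.1 (D.dense y) (δ / (1 + K0 e)) (div_pos hδ hK)
  obtain ⟨n, hn⟩ := exists_bound x
  refine ⟨n, fun m hm => ?_⟩
  rw [dist_zero_right]
  have h0 : t e m (L e x) = 0 := by
    rw [L_eq_sum e x n hn, map_sum]
    refine Finset.sum_eq_zero fun i hi => ?_
    rw [map_smul, t_e D, if_neg (by have := mem_range.1 hi; omega), smul_zero]
  have h1 : t e m y = t e m (y - L e x) := by rw [map_sub, h0, sub_zero]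
  rw [h1]
  have h2 := t_le D m (y - L e x)
  rw [dist_eq_norm] at hz
  have h3 : ‖y - L e x‖ * (1 + K0 e) < δ := by
    rw [← lt_div_iff₀ hK]
    exact hz
  nlinarith [norm_nonneg (y - L e x)]

/-- The data from a Schauder basis which is ESA. -/
theorem Dat.of_basis (hb : ∀ x : X, ∃! a : ℕ → ℝ,
      Filter.Tendsto (fun N : ℕ => ∑ i ∈ Finset.range N, a i • e i) Filter.atTop (nhds x))
    (he : ESA e) : Dat e where
  esa := he
  dense := by
    intro x
    obtain ⟨a, ha, _⟩ := hb x
    refine mem_closure_of_tendsto ha (Eventually.of_forall fun N => ?_)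
    refine ⟨∑ i ∈ range N, Finsupp.single i (a i), ?_⟩
    rw [map_sum]
    exact Finset.sum_congr rfl fun i _ => L_single e i (a i)
  ne := by
    intro h
    have h1 : ∀ k : ℕ, k ≤ 1 → Filter.Tendsto (fun N : ℕ => ∑ i ∈ Finset.range N,
        (if i = k then (1 : ℝ) else 0) • e i) Filter.atTop (nhds (e 0)) := by
      intro k hk
      refine tendsto_const_nhds.congr' ?_
      filter_upwards [eventually_ge_atTop 2] with N hN
      have h2 : ∀ i, (if i = k then (1 : ℝ) else 0) • e i = if i = k then e i else 0 := by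
        intro i
        split_ifs
        · rw [one_smul]
        · rw [zero_smul]
      rw [Finset.sum_congr rfl fun i _ => h2 i, Finset.sum_ite_eq', if_pos (mem_range.2 (by omega))]
      rcases Nat.le_one_iff_eq_zero_or_eq_one.1 hk with rfl | rfl
      · rfl
      · exact h
    have h3 := (hb (e 0)).unique (h1 0 (by omega)) (h1 1 le_rfl)
    have h4 := congrFun h3 0
    rw [if_pos rfl, if_neg (by omega)] at h4
    exact one_ne_zero h4

end Pool.Agent.Lib.MP_15d71b_an.Sq
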