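import Pool.Agent.Lib.MP_15d71b_an.Sq.A4
import Mathlib.Order.Filter.Ultrafilter.Basic

/-!
# ESA sequences, file A5: the limit of the tail matrix and the selection (helper72)
-/

set_option autoImplicit false
set_option linter.unusedSectionVars false

namespace Pool.Agent.Lib.MP_15d71b_an.Sq

open Finset Filter Topology

variable {X : Type} [NormedAddCommGroup X] [NormedSpace ℝ X] [CompleteSpace X] {e : ℕ → X}

theorem ulim {f : ℕ → ℝ} {B : ℝ} (h : ∀ j, ‖f j‖ ≤ B) :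
    ∃ x, ‖x‖ ≤ B ∧ Tendsto f (hyperfilter ℕ : Filter ℕ) (𝓝 x) := by
  have h1 : Metric.closedBall (0 : ℝ) B ∈ (hyperfilter ℕ).map f := by
    rw [Ultrafilter.mem_map]
    refine Filter.univ_mem' fun j => ?_
    rw [Set.mem_preimage, mem_closedBall_zero_iff]
    exact h j
  obtain ⟨x, hx, hx2⟩ := (isCompact_closedBall (0 : ℝ) B).ultrafilter_le_nhds' ((hyperfilter ℕ).map f) h1
  exact ⟨x, mem_closedBall_zero_iff.1 hx, hx2⟩

theorem hyper_le : (hyperfilter ℕ : Filter ℕ) ≤ atTop := by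
  rw [← Nat.cofinite_eq_atTop]
  exact hyperfilter_le_cofinite

/-- The iterated limit of the tail matrix of `T` is `γ`. -/
def IsG (e : ℕ → X) (T : X →L[ℝ] X) (γ : ℝ) : Prop :=
  ∃ G : ℕ → ℝ, (∀ m, Tendsto (fun j => t e m (T (e j))) (hyperfilter ℕ : Filter ℕ) (𝓝 (G m))) ∧
    Tendsto G (hyperfilter ℕ : Filter ℕ) (𝓝 γ)

theorem exists_isG (D : Dat e) (T : X →L[ℝ] X) : ∃ γ, IsG e T γ := by
  have h1 : ∀ m, ∃ x, ‖x‖ ≤ K0 e * (‖T‖ * ‖e 0‖) ∧
      Tendsto (fun j => t e m (T (e j))) (hyperfilter ℕ : Filter ℕ) (𝓝 x) := by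
    intro m
    refine ulim fun j => ?_
    refine (t_le D m _).trans (mul_le_mul_of_nonneg_left ?_ (K0_nonneg e))
    have h := T.le_opNorm (e j)
    rwa [norm_e D.esa] at h
  choose G hG1 hG2 using h1
  obtain ⟨γ, _, hγ⟩ := ulim hG1
  exact ⟨γ, G, hG2, hγ⟩

theorem IsG.one_sub (D : Dat e) {T : X →L[ℝ] X} {γ : ℝ} (h : IsG e T γ) :
    IsG e (1 - T) (1 - γ) := by
  obtain ⟨G, h1, h2⟩ := h
  refine ⟨fun m => 1 - G m, fun m => ?_, tendsto_const_nhds.sub h2⟩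
  have h3 : Tendsto (fun j => t e m (e j)) (hyperfilter ℕ : Filter ℕ) (𝓝 1) := by
    refine Tendsto.mono_left ?_ hyper_le
    refine tendsto_const_nhds.congr' ?_
    filter_upwards [eventually_ge_atTop m] with j hj
    rw [t_e D, if_pos hj]
  refine (h3.sub (h1 m)).congr fun j => ?_
  rw [sub_apply, one_apply_eq_self, map_sub]

theorem IsG.unique {T : X →L[ℝ] X} {γ γ' : ℝ} (h : IsG e T γ) (h' : IsG e T γ') : γ = γ' := by
  obtain ⟨G, h1, h2⟩ := h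
  obtain ⟨G', h1', h2'⟩ := h'
  have h3 : G = G' := by
    funext m
    exact tendsto_nhds_unique (h1 m) (h1' m)
  rw [h3] at h2
  exact tendsto_nhds_unique h2 h2'

/-- The selected positions. -/
structure Sel (e : ℕ → X) (T : X →L[ℝ] X) (γ ε : ℝ) (k p : ℕ → ℕ) : Prop where
  kmono : StrictMono k
  pmono : StrictMono p
  kp : ∀ i, k i ≤ p i
  pk : ∀ i j, i < j → p i < k j
  low : ∀ m j, j < m → ‖t e (k m) (T (e (p j)))‖ ≤ ε * ((1 / 2) ^ m * (1 / 2) ^ j)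
  high : ∃ c : ℕ → ℝ, (∀ m, ‖c m - γ‖ ≤ ε * (1 / 2) ^ m) ∧
    ∀ m j, m ≤ j → ‖t e (k m) (T (e (p j))) - c m‖ ≤ ε * ((1 / 2) ^ m * (1 / 2) ^ j)

theorem exists_sel (D : Dat e) {T : X →L[ℝ] X} {γ : ℝ} (hG : IsG e T γ) {ε : ℝ} (hε : 0 < ε) :
    ∃ k p, Sel e T γ ε k p := by
  obtain ⟨G, h1, h2⟩ := hG
  have hhalf : ∀ n : ℕ, (0 : ℝ) < (1 / 2) ^ n := fun n => by positivity
  have key := exists_seq_of_forall_finset_exists
    (fun a : ℕ × ℕ × ℕ => a.2.1 ≤ a.2.2 ∧ ‖G a.2.1 - γ‖ ≤ ε * (1 / 2) ^ a.1 ∧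
      ‖t e a.2.1 (T (e a.2.2)) - G a.2.1‖ ≤ ε * ((1 / 2) ^ a.1 * (1 / 2) ^ a.1))
    (fun a b => a.1 < b.1 ∧ a.2.2 < b.2.1 ∧
      ‖t e b.2.1 (T (e a.2.2))‖ ≤ ε * ((1 / 2) ^ b.1 * (1 / 2) ^ a.1) ∧
      ‖t e a.2.1 (T (e b.2.2)) - G a.2.1‖ ≤ ε * ((1 / 2) ^ a.1 * (1 / 2) ^ b.1))
    (by
      intro s _
      obtain ⟨n, hn⟩ : ∃ n, n = s.sup (fun a => a.1) + 1 := ⟨_, rfl⟩
      have hn1 : ∀ a ∈ s, a.1 < n := by
        intro a ha
        have := Finset.le_sup (f := fun a : ℕ × ℕ × ℕ => a.1) ha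
        omega
      -- choice of `k`
      have e1 : ∀ᶠ k in (hyperfilter ℕ : Filter ℕ), ‖G k - γ‖ ≤ ε * (1 / 2) ^ n := by
        have h := Metric.tendsto_nhds.1 h2 (ε * (1 / 2) ^ n) (mul_pos hε (hhalf n))
        filter_upwards [h] with k hk
        rw [dist_eq_norm] at hk
        exact hk.le
      have e2 : ∀ᶠ k in (hyperfilter ℕ : Filter ℕ), ∀ a ∈ s, a.2.2 < k := by
        rw [Filter.eventually_all_finset]
        intro a _
        exact (eventually_gt_atTop a.2.2).filter_mono hyper_le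
      have e3 : ∀ᶠ k in (hyperfilter ℕ : Filter ℕ), ∀ a ∈ s,
          ‖t e k (T (e a.2.2))‖ ≤ ε * ((1 / 2) ^ n * (1 / 2) ^ a.1) := by
        rw [Filter.eventually_all_finset]
        intro a _
        have h := Metric.tendsto_nhds.1 ((t_tendsto D (T (e a.2.2))).mono_left hyper_le)
          (ε * ((1 / 2) ^ n * (1 / 2) ^ a.1)) (mul_pos hε (mul_pos (hhalf _) (hhalf _)))
        filter_upwards [h] with k hk
        rw [dist_zero_right] at hk
        exact hk.le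
      obtain ⟨k, hk1, hk2, hk3⟩ := (e1.and (e2.and e3)).exists
      -- choice of `p`
      have e4 : ∀ᶠ p in (hyperfilter ℕ : Filter ℕ), k ≤ p :=
        (eventually_ge_atTop k).filter_mono hyper_le
      have e5 : ∀ᶠ p in (hyperfilter ℕ : Filter ℕ),
          ‖t e k (T (e p)) - G k‖ ≤ ε * ((1 / 2) ^ n * (1 / 2) ^ n) := by
        have h := Metric.tendsto_nhds.1 (h1 k) (ε * ((1 / 2) ^ n * (1 / 2) ^ n))
          (mul_pos hε (mul_pos (hhalf _) (hhalf _)))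
        filter_upwards [h] with p hp
        rw [dist_eq_norm] at hp
        exact hp.le
      have e6 : ∀ᶠ p in (hyperfilter ℕ : Filter ℕ), ∀ a ∈ s,
          ‖t e a.2.1 (T (e p)) - G a.2.1‖ ≤ ε * ((1 / 2) ^ a.1 * (1 / 2) ^ n) := by
        rw [Filter.eventually_all_finset]
        intro a _
        have h := Metric.tendsto_nhds.1 (h1 a.2.1) (ε * ((1 / 2) ^ a.1 * (1 / 2) ^ n))
          (mul_pos hε (mul_pos (hhalf _) (hhalf _)))
        filter_upwards [h] with p hp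
        rw [dist_eq_norm] at hp
        exact hp.le
      obtain ⟨p, hp1, hp2, hp3⟩ := (e4.and (e5.and e6)).exists
      exact ⟨(n, k, p), ⟨hp1, hk1, hp2⟩, fun a ha => ⟨hn1 a ha, hk2 a ha, hk3 a ha, hp3 a ha⟩⟩)
  obtain ⟨f, hf1, hf2⟩ := key
  have hnm : StrictMono fun i => (f i).1 := fun i j hij => (hf2 i j hij).1
  have hni : ∀ i, (1 / 2 : ℝ) ^ (f i).1 ≤ (1 / 2) ^ i := fun i =>
    pow_le_pow_of_le_one (by norm_num) (by norm_num) (hnm.le_apply)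
  have hmm : ∀ i j, (1 / 2 : ℝ) ^ (f i).1 * (1 / 2) ^ (f j).1 ≤ (1 / 2) ^ i * (1 / 2) ^ j :=
    fun i j => mul_le_mul (hni i) (hni j) (hhalf _).le (hhalf _).le
  refine ⟨fun i => (f i).2.1, fun i => (f i).2.2, ?_, ?_, fun i => (hf1 i).1,
    fun i j hij => (hf2 i j hij).2.1, ?_, fun m => G (f m).2.1, ?_, ?_⟩
  · exact fun i j hij => lt_of_le_of_lt (hf1 i).1 (hf2 i j hij).2.1
  · exact fun i j hij => lt_of_lt_of_le (hf2 i j hij).2.1 (hf1 j).1
  · exact fun m j hjm => (hf2 j m hjm).2.2.1.trans (mul_le_mul_of_nonneg_left (hmm m j) hε.le)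
  · exact fun m => (hf1 m).2.1.trans (mul_le_mul_of_nonneg_left (hni m) hε.le)
  · intro m j hmj
    rcases Nat.lt_or_eq_of_le hmj with h | h
    · exact (hf2 m j h).2.2.2.trans (mul_le_mul_of_nonneg_left (hmm m j) hε.le)
    · rw [← h]
      exact (hf1 m).2.2.trans (mul_le_mul_of_nonneg_left (hmm m m) hε.le)

end Pool.Agent.Lib.MP_15d71b_an.Sq
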