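import Pool.Agent.Lib.MP_15d71b_an.Sq.A5

/-!
# ESA sequences, file A6: compression of an operator to a multiple of the identity (helper72)
-/

set_option autoImplicit false
set_option linter.unusedSectionVars false

namespace Pool.Agent.Lib.MP_15d71b_an.Sq

open Finset Filter Topology

variable {X : Type} [NormedAddCommGroup X] [NormedSpace ℝ X] [CompleteSpace X] {e : ℕ → X}

theorem ph_p {T : X →L[ℝ] X} {γ ε : ℝ} {k p : ℕ → ℕ} (S : Sel e T γ ε k p) (i : ℕ) :
    ph k S.kmono (p i) = i + 1 := by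
  have h : ∀ m, m < ph k S.kmono (p i) ↔ m < i + 1 := by
    intro m
    rw [lt_ph]
    constructor
    · intro h
      by_contra hc
      exact absurd (S.pk i m (by omega)) (not_lt.2 h)
    · intro h
      exact (S.kmono.monotone (by omega : m ≤ i)).trans (S.kp i)
  have h1 := h (ph k S.kmono (p i))
  have h2 := h (i + 1)
  have h3 := h i
  omega

theorem Mo_C (D : Dat e) {T : X →L[ℝ] X} {γ ε : ℝ} {k p : ℕ → ℕ} (S : Sel e T γ ε k p) :
    (Mo e k S.kmono).comp (C e p) = 1 := by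
  apply ext_e D
  intro i
  rw [ContinuousLinearMap.comp_apply, C_e D S.pmono.monotone, Mo_e D, ph_p S,
    if_pos ((S.kmono.monotone (Nat.zero_le i)).trans (S.kp i)), one_apply_eq_self]
  rfl

theorem coef (D : Dat e) (x : ℕ →₀ ℝ) (j : ℕ) : x j = t e j (L e x) - t e (j + 1) (L e x) := by
  rw [t_L D, t_L D]
  induction x using Finsupp.induction_linear with
  | zero => simp
  | add f g hf hg => rw [map_add, map_add, Finsupp.add_apply, hf, hg]; ring
  | single i a =>
    rw [tl_single, tl_single, Finsupp.single_apply]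
    by_cases h : i = j
    · rw [if_pos h, if_pos (by omega), if_neg (by omega), sub_zero]
    · rw [if_neg h]
      by_cases h2 : j ≤ i
      · rw [if_pos h2, if_pos (by omega), sub_self]
      · rw [if_neg h2, if_neg (by omega), sub_self]

theorem abs_coef_le (D : Dat e) (x : ℕ →₀ ℝ) (j : ℕ) : ‖x j‖ ≤ 2 * K0 e * ‖L e x‖ := by
  rw [coef D]
  refine (norm_sub_le _ _).trans ?_
  have h1 := t_le D j (L e x)
  have h2 := t_le D (j + 1) (L e x)
  linarith

theorem sum_half_le (N : ℕ) : ∑ j ∈ range N, (1 / 2 : ℝ) ^ j ≤ 2 := by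
  have h := summable_geometric_two.sum_le_tsum (range N) fun i _ => by positivity
  rwa [tsum_geometric_two] at h

theorem t_comp_le (D : Dat e) {T : X →L[ℝ] X} {γ ε : ℝ} {k p : ℕ → ℕ} (S : Sel e T γ ε k p)
    (hε : 0 ≤ ε) (m : ℕ) (x : ℕ →₀ ℝ) :
    ‖t e (k m) (T (C e p (L e x))) - γ * t e m (L e x)‖ ≤ 5 * K0 e * ε * ‖L e x‖ * (1 / 2) ^ m := by
  obtain ⟨c, hc1, hc2⟩ := S.high
  obtain ⟨N, hN⟩ := exists_bound x
  have e1 : C e p (L e x) = ∑ j ∈ range N, x j • e (p j) := by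
    rw [L_eq_sum e x N hN, map_sum]
    exact Finset.sum_congr rfl fun j _ => by rw [map_smul, C_e D S.pmono.monotone]
  have e2 : t e (k m) (T (C e p (L e x))) = ∑ j ∈ range N, x j * t e (k m) (T (e (p j))) := by
    rw [e1, map_sum, map_sum]
    exact Finset.sum_congr rfl fun j _ => by rw [map_smul, map_smul, smul_eq_mul]
  have e3 : t e m (L e x) = ∑ j ∈ range N, x j * (if m ≤ j then 1 else 0) := by
    rw [L_eq_sum e x N hN, map_sum]
    exact Finset.sum_congr rfl fun j _ => by rw [map_smul, t_e D, smul_eq_mul]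
  have e4 : t e (k m) (T (C e p (L e x))) - γ * t e m (L e x)
      = ∑ j ∈ range N, x j * (t e (k m) (T (e (p j))) - c m * (if m ≤ j then 1 else 0))
        + (c m - γ) * t e m (L e x) := by
    have e5 : ∑ j ∈ range N, x j * (t e (k m) (T (e (p j))) - c m * (if m ≤ j then 1 else 0))
        = ∑ j ∈ range N, x j * t e (k m) (T (e (p j)))
          - c m * ∑ j ∈ range N, x j * (if m ≤ j then 1 else 0) := by
      rw [Finset.mul_sum, ← Finset.sum_sub_distrib]
      exact Finset.sum_congr rfl fun j _ => by ring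
    rw [e5, ← e2, ← e3]
    ring
  have hD : ∀ j, ‖t e (k m) (T (e (p j))) - c m * (if m ≤ j then 1 else 0)‖
      ≤ ε * ((1 / 2) ^ m * (1 / 2) ^ j) := by
    intro j
    by_cases h : m ≤ j
    · rw [if_pos h, mul_one]
      exact hc2 m j h
    · rw [if_neg h, mul_zero, sub_zero]
      exact S.low m j (not_le.1 h)
  have hx : 0 ≤ 2 * K0 e * ‖L e x‖ := (norm_nonneg _).trans (abs_coef_le D x 0)
  have h1 : ‖∑ j ∈ range N, x j * (t e (k m) (T (e (p j))) - c m * (if m ≤ j then 1 else 0))‖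
      ≤ ∑ j ∈ range N, 2 * K0 e * ‖L e x‖ * (ε * ((1 / 2) ^ m * (1 / 2) ^ j)) := by
    refine norm_sum_le_of_le _ fun j _ => ?_
    rw [norm_mul]
    exact mul_le_mul (abs_coef_le D x j) (hD j) (norm_nonneg _) hx
  have h2 : ∑ j ∈ range N, 2 * K0 e * ‖L e x‖ * (ε * ((1 / 2) ^ m * (1 / 2) ^ j))
      = 2 * K0 e * ‖L e x‖ * ε * (1 / 2) ^ m * ∑ j ∈ range N, (1 / 2 : ℝ) ^ j := by
    rw [Finset.mul_sum]
    exact Finset.sum_congr rfl fun j _ => by ring
  have h3 : 0 ≤ 2 * K0 e * ‖L e x‖ * ε * (1 / 2) ^ m := by positivity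
  have h4 := mul_le_mul_of_nonneg_left (sum_half_le N) h3
  have h5 : ‖(c m - γ) * t e m (L e x)‖ ≤ ε * (1 / 2) ^ m * (K0 e * ‖L e x‖) := by
    rw [norm_mul]
    exact mul_le_mul (hc1 m) (t_le D m _) (norm_nonneg _) (by positivity)
  rw [e4]
  refine (norm_add_le _ _).trans ?_
  rw [h2] at h1
  linarith

/-- **Compression**: `M T S` is close to a multiple of the identity. -/
theorem comp_le (D : Dat e) {T : X →L[ℝ] X} {γ ε : ℝ} {k p : ℕ → ℕ} (S : Sel e T γ ε k p)
    (hε : 0 ≤ ε) (y : X) :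
    ‖Mo e k S.kmono (T (C e p y)) - γ • y‖ ≤ 20 * ‖e 0‖ * K0 e * ε * ‖y‖ := by
  obtain ⟨A, hA⟩ : ∃ A : X →L[ℝ] X, A = (Mo e k S.kmono).comp (T.comp (C e p)) - γ • (1 : X →L[ℝ] X) :=
    ⟨_, rfl⟩
  have hAy : ∀ z, A z = Mo e k S.kmono (T (C e p z)) - γ • z := by
    intro z
    rw [hA]
    rfl
  rw [← hAy]
  refine le_of_L D (fun x => ?_) y
  rw [hAy]
  have h1 : ∀ m, ‖t e m (Mo e k S.kmono (T (C e p (L e x))) - γ • L e x)‖
      ≤ 5 * K0 e * ε * ‖L e x‖ * (1 / 2) ^ m := by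
    intro m
    rw [map_sub, t_Mo D, map_smul, smul_eq_mul]
    exact t_comp_le D S hε m x
  have h2 := norm_le_of_t D (summable_geometric_two.mul_left (5 * K0 e * ε * ‖L e x‖)) h1
  rw [tsum_mul_left, tsum_geometric_two] at h2
  refine h2.trans (le_of_eq ?_)
  ring

end Pool.Agent.Lib.MP_15d71b_an.Sq
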