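import Mathlib

/-!
# ESA sequences, file A7a: a large complemented part (helper83, helper72)
-/

set_option autoImplicit false
set_option linter.unusedSectionVars false

namespace Pool.Agent.Lib.MP_15d71b_an.Sq

variable {X : Type} [NormedAddCommGroup X] [NormedSpace ℝ X] [CompleteSpace X]

/-- `P` is a projection with range `Y`, `S = R P J` is invertible, `K = ker R`. Put
`E := P ∘ J ∘ S⁻¹ ∘ R`. Then `R (E x) = S (S⁻¹ (R x)) = R x`, `P (E x) = E x`, `E (E x) = E x`, and
`E k = 0` for `k ∈ K`. Let `Q : K → K`, `Q k := P k - E (P k)` (it lies in `K`, as `R (Q k) = 0`),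
a bounded operator (`ContinuousLinearMap.codRestrict`) with values in `Y` (`P (Q k) = Q k`). If
`k ∈ K` and `P k = k` then `Q k = k - E k = k`. So `Q` is a projection of `K` onto
`W := {k : K | (k : X) ∈ Y}`; take `V := ker Q`; both are closed, `IsCompl W V`
(`k = Q k + (k - Q k)`). Finally `Y ≃ X × W`, `y ↦ (S⁻¹ (R y), y - E y)` with inverse
`(x, w) ↦ P (J x) + w` (for `y ∈ Y`: `y - E y ∈ K`, `P (y - E y) = y - E y`; conversely
`R (P J x + w) = S x` and `E (P J x + w) = P J S⁻¹ S x = P J x`). -/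
theorem alg (P R J : X →L[ℝ] X) (hP : ∀ x, P (P x) = P x) (S : X ≃L[ℝ] X)
    (hS : ∀ x, S x = R (P (J x))) (K : Submodule ℝ X) (hK : ∀ x, x ∈ K ↔ R x = 0)
    (Y Z : Submodule ℝ X) (hY : ∀ x, x ∈ Y ↔ P x = x) (hZ : ∀ x, x ∈ Z ↔ P x = 0) :
    ∃ W V : Submodule ℝ K, IsClosed (W : Set K) ∧ IsClosed (V : Set K) ∧ IsCompl W V ∧
      Nonempty (Y ≃L[ℝ] X × W) ∧ Nonempty (Z ≃L[ℝ] V) := by
  set E : X →L[ℝ] X := P.comp (J.comp ((S.symm : X →L[ℝ] X).comp R)) with hEdef
  have hE : ∀ x, E x = P (J (S.symm (R x))) := fun x => rfl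
  have hRE : ∀ x, R (E x) = R x := by
    intro x
    rw [hE, ← hS, S.apply_symm_apply]
  have hPE : ∀ x, P (E x) = E x := by
    intro x
    rw [hE, hP]
  have hE0 : ∀ x, R x = 0 → E x = 0 := by
    intro x hx
    rw [hE, hx, map_zero, map_zero, map_zero]
  have hEJ : ∀ x, E (P (J x)) = P (J x) := by
    intro x
    rw [hE, ← hS, S.symm_apply_apply]
  have hQK : ∀ k : K, ((P - E.comp P).comp K.subtypeL) k ∈ K := by
    intro k
    rw [hK]
    show R (P (k : X) - E (P (k : X))) = 0
    rw [map_sub, hRE, sub_self]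
  set Q : K →L[ℝ] K := ((P - E.comp P).comp K.subtypeL).codRestrict K hQK with hQdef
  have hQ : ∀ k : K, ((Q k : K) : X) = P (k : X) - E (P (k : X)) := fun k => rfl
  have hPQ : ∀ k : K, P ((Q k : K) : X) = ((Q k : K) : X) := by
    intro k
    rw [hQ, map_sub, hP, hPE]
  have hQfix : ∀ k : K, P (k : X) = (k : X) → Q k = k := by
    intro k hk
    apply Subtype.ext
    rw [hQ, hk, hE0 (k : X) ((hK _).1 k.2), sub_zero]
  set W : Submodule ℝ K := Y.comap K.subtype with hWdef
  have hW : ∀ k : K, k ∈ W ↔ P (k : X) = (k : X) := fun k => hY (k : X)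
  set V : Submodule ℝ K := LinearMap.ker (Q : K →ₗ[ℝ] K) with hVdef
  have hV : ∀ k : K, k ∈ V ↔ Q k = 0 := fun k => LinearMap.mem_ker
  have hWc : IsClosed (W : Set K) := by
    have h1 : (W : Set K) = {k : K | P (k : X) = (k : X)} := by
      ext k
      exact hW k
    rw [h1]
    exact isClosed_eq (P.continuous.comp continuous_subtype_val) continuous_subtype_val
  have hVc : IsClosed (V : Set K) := by
    have h1 : (V : Set K) = {k : K | Q k = 0} := by
      ext k
      exact hV k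
    rw [h1]
    exact isClosed_eq Q.continuous continuous_const
  have hcompl : IsCompl W V := by
    constructor
    · rw [Submodule.disjoint_def]
      intro k hkW hkV
      rw [← hQfix k ((hW k).1 hkW)]
      exact (hV k).1 hkV
    · rw [codisjoint_iff, eq_top_iff]
      intro k _
      refine Submodule.mem_sup.2 ⟨Q k, (hW _).2 (hPQ k), k - Q k, (hV _).2 ?_, by abel⟩
      rw [map_sub, hQfix (Q k) (hPQ k), sub_self]
  refine ⟨W, V, hWc, hVc, hcompl, ⟨?_⟩, ?_⟩
  swap
  · have hEE : ∀ x, E (E x) = E x := by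
      intro x
      rw [hE x, hEJ]
    have hA1 : ∀ z : Z, ((ContinuousLinearMap.id ℝ X - E).comp Z.subtypeL) z ∈ K := by
      intro z
      rw [hK]
      show R ((z : X) - E (z : X)) = 0
      rw [map_sub, hRE, sub_self]
    set A1 : Z →L[ℝ] K := ((ContinuousLinearMap.id ℝ X - E).comp Z.subtypeL).codRestrict K hA1
      with hA1def
    have hA1v : ∀ z : Z, ((A1 z : K) : X) = (z : X) - E (z : X) := fun z => rfl
    have hA2 : ∀ z : Z, A1 z ∈ V := by
      intro z
      rw [hV]
      apply Subtype.ext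
      rw [hQ, hA1v, map_sub, (hZ (z : X)).1 z.2, hPE, zero_sub, map_neg, hEE]
      show -E (z : X) - -E (z : X) = 0
      rw [sub_self]
    set A2 : Z →L[ℝ] V := A1.codRestrict V hA2 with hA2def
    have hA2v : ∀ z : Z, (((A2 z : V) : K) : X) = (z : X) - E (z : X) := fun z => rfl
    have hB1 : ∀ v : V, ((ContinuousLinearMap.id ℝ X - P).comp (K.subtypeL.comp V.subtypeL)) v ∈ Z := by
      intro v
      rw [hZ]
      show P (((v : K) : X) - P ((v : K) : X)) = 0
      rw [map_sub, hP, sub_self]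
    set B1 : V →L[ℝ] Z :=
      ((ContinuousLinearMap.id ℝ X - P).comp (K.subtypeL.comp V.subtypeL)).codRestrict Z hB1
      with hB1def
    have hB1v : ∀ v : V, ((B1 v : Z) : X) = ((v : K) : X) - P ((v : K) : X) := fun v => rfl
    refine ⟨ContinuousLinearEquiv.equivOfInverse A2 B1 ?_ ?_⟩
    · intro z
      apply Subtype.ext
      rw [hB1v, hA2v, map_sub, (hZ (z : X)).1 z.2, hPE]
      abel
    · intro v
      apply Subtype.ext
      apply Subtype.ext
      have h1 : P ((v : K) : X) - E (P ((v : K) : X)) = 0 := by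
        rw [← hQ, (hV _).1 v.2]
        rfl
      rw [hA2v, hB1v, map_sub, hE0 _ ((hK _).1 (v : K).2)]
      have h2 : ((v : K) : X) - P ((v : K) : X) - (0 - E (P ((v : K) : X)))
          = ((v : K) : X) - (P ((v : K) : X) - E (P ((v : K) : X))) := by abel
      rw [h2, h1, sub_zero]
  have hT1 : ∀ y : Y, ((ContinuousLinearMap.id ℝ X - E).comp Y.subtypeL) y ∈ K := by
    intro y
    rw [hK]
    show R ((y : X) - E (y : X)) = 0
    rw [map_sub, hRE, sub_self]
  set T1 : Y →L[ℝ] K := ((ContinuousLinearMap.id ℝ X - E).comp Y.subtypeL).codRestrict K hT1 with hT1def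
  have hT1v : ∀ y : Y, ((T1 y : K) : X) = (y : X) - E (y : X) := fun y => rfl
  have hT2 : ∀ y : Y, T1 y ∈ W := by
    intro y
    rw [hW, hT1v, map_sub, hPE, (hY (y : X)).1 y.2]
  set T2 : Y →L[ℝ] W := T1.codRestrict W hT2 with hT2def
  have hT2v : ∀ y : Y, (((T2 y : W) : K) : X) = (y : X) - E (y : X) := fun y => rfl
  set f : Y →L[ℝ] X × W := ((S.symm : X →L[ℝ] X).comp (R.comp Y.subtypeL)).prod T2 with hfdef
  have hf : ∀ y : Y, f y = (S.symm (R (y : X)), T2 y) := fun y => rfl
  set g0 : X × W →L[ℝ] X := (P.comp J).comp (ContinuousLinearMap.fst ℝ X W) +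
    (K.subtypeL.comp W.subtypeL).comp (ContinuousLinearMap.snd ℝ X W) with hg0def
  have hg0 : ∀ z : X × W, g0 z = P (J z.1) + ((z.2 : K) : X) := fun z => rfl
  have hg0Y : ∀ z : X × W, g0 z ∈ Y := by
    intro z
    rw [hY, hg0, map_add, hP, (hW _).1 z.2.2]
  set g : X × W →L[ℝ] Y := g0.codRestrict Y hg0Y with hgdef
  have hg : ∀ z : X × W, ((g z : Y) : X) = P (J z.1) + ((z.2 : K) : X) := fun z => rfl
  refine ContinuousLinearEquiv.equivOfInverse f g ?_ ?_
  · intro y
    apply Subtype.ext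
    rw [hg, hf]
    show P (J (S.symm (R (y : X)))) + (((T2 y : W) : K) : X) = (y : X)
    rw [hT2v, ← hE]
    abel
  · intro z
    have hRw : R ((z.2 : K) : X) = 0 := (hK _).1 (z.2 : K).2
    rw [hf]
    apply Prod.ext
    · show S.symm (R ((g z : Y) : X)) = z.1
      rw [hg, map_add, ← hS, hRw, add_zero, S.symm_apply_apply]
    · show T2 (g z) = z.2
      apply Subtype.ext
      apply Subtype.ext
      rw [hT2v, hg, map_add, hEJ, hE0 _ hRw]
      abel

end Pool.Agent.Lib.MP_15d71b_an.Sq
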