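import Pool.Agent.Lib.MP_15d71b_an.Sq.A6
import Pool.Agent.Lib.MP_15d71b_an.Sq.A7a
import Pool.Agent.Lib.MP_15d71b_an.Defs

/-!
# ESA sequences, file A7: the unconditional core theorem (helper72)
-/

set_option autoImplicit false
set_option linter.unusedSectionVars false

namespace Pool.Agent.Lib.MP_15d71b_an.Sq

open Finset Filter Topology

variable {X : Type} [NormedAddCommGroup X] [NormedSpace ℝ X] [CompleteSpace X] {e : ℕ → X}

/-- The bundle from the definition used in the other files. -/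
theorem Dat.of_esa (h : Pool.Agent.MP_15d71b_an.ESA e) : Dat e := Dat.of_basis h.basis h.merge

/-- An operator close to a nonzero multiple of the identity is invertible. -/
theorem exists_equiv {B : X →L[ℝ] X} {γ : ℝ} (hγ : 1 / 2 ≤ |γ|)
    (hB : ∀ y, ‖B y - γ • y‖ ≤ 1 / 4 * ‖y‖) : ∃ S : X ≃L[ℝ] X, ∀ x, S x = B x := by
  have hγ0 : γ ≠ 0 := by
    intro h
    rw [h, abs_zero] at hγ
    linarith
  obtain ⟨t, ht⟩ : ∃ t : X →L[ℝ] X, t = 1 - γ⁻¹ • B := ⟨_, rfl⟩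
  have htn : ‖t‖ < 1 := by
    have h1 : ‖t‖ ≤ 1 / 2 := by
      refine ContinuousLinearMap.opNorm_le_bound _ (by norm_num) fun y => ?_
      have h2 : t y = -(γ⁻¹ • (B y - γ • y)) := by
        rw [ht, sub_apply, one_apply_eq_self, smul_apply, smul_sub, smul_smul,
          inv_mul_cancel₀ hγ0, one_smul, neg_sub]
      rw [h2, norm_neg, norm_smul, norm_inv, Real.norm_eq_abs]
      have h3 : |γ|⁻¹ ≤ 2 := by
        have h4 := inv_anti₀ (by norm_num : (0 : ℝ) < 1 / 2) hγ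
        norm_num at h4
        exact h4
      have h5 := hB y
      have h6 : |γ|⁻¹ * ‖B y - γ • y‖ ≤ 2 * (1 / 4 * ‖y‖) :=
        mul_le_mul h3 h5 (norm_nonneg _) (by norm_num)
      linarith
    linarith
  refine ⟨(ContinuousLinearEquiv.ofUnit (Units.oneSub t htn)).trans
    (ContinuousLinearEquiv.smulLeft (Units.mk0 γ hγ0)), fun x => ?_⟩
  have h1 : (ContinuousLinearEquiv.ofUnit (Units.oneSub t htn)) x = x - t x := rfl
  have h2 : t x = x - γ⁻¹ • B x := by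
    rw [ht, sub_apply, one_apply_eq_self, smul_apply]
  rw [ContinuousLinearEquiv.trans_apply, h1, h2, sub_sub_cancel]
  show γ • (γ⁻¹ • B x) = B x
  rw [smul_smul, mul_inv_cancel₀ hγ0, one_smul]

/-- The invertible compression. -/
theorem exists_comp (D : Dat e) {T : X →L[ℝ] X} {γ : ℝ} (hG : IsG e T γ) (hγ : 1 / 2 ≤ |γ|) :
    ∃ (k : ℕ → ℕ) (hk : StrictMono k) (J : X →L[ℝ] X) (S : X ≃L[ℝ] X),
      ∀ x, S x = Mo e k hk (T (J x)) := by
  obtain ⟨ε, hε, hε2⟩ : ∃ ε : ℝ, 0 < ε ∧ 20 * ‖e 0‖ * K0 e * ε ≤ 1 / 4 := by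
    have h0 : 0 ≤ 20 * ‖e 0‖ * K0 e := by
      have := K0_nonneg e
      positivity
    refine ⟨1 / 4 / (20 * ‖e 0‖ * K0 e + 1), by positivity, ?_⟩
    rw [← mul_div_assoc, div_le_iff₀ (by linarith)]
    linarith
  obtain ⟨k, p, S⟩ := exists_sel D hG hε
  have h1 : ∀ y, ‖(Mo e k S.kmono).comp (T.comp (C e p)) y - γ • y‖ ≤ 1 / 4 * ‖y‖ := by
    intro y
    exact (comp_le D S hε.le y).trans (mul_le_mul_of_nonneg_right hε2 (norm_nonneg _))
  obtain ⟨S', hS'⟩ := exists_equiv hγ h1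
  exact ⟨k, S.kmono, C e p, S', fun x => hS' x⟩

/-- **Core theorem, for the projection**. -/
theorem core_proj (D : Dat e) {P : X →L[ℝ] X} {γ : ℝ} (hG : IsG e P γ) (hγ : 1 / 2 ≤ |γ|)
    (hP : ∀ x, P (P x) = P x) (Y Z : Submodule ℝ X) (hY : ∀ x, x ∈ Y ↔ P x = x)
    (hZ : ∀ x, x ∈ Z ↔ P x = 0) :
    ∃ (k : ℕ → ℕ) (hk : StrictMono k) (W V : Submodule ℝ (LinearMap.ker (Mo e k hk).toLinearMap)),
      IsClosed (W : Set (LinearMap.ker (Mo e k hk).toLinearMap)) ∧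
      IsClosed (V : Set (LinearMap.ker (Mo e k hk).toLinearMap)) ∧ IsCompl W V ∧
      Nonempty (Y ≃L[ℝ] X × W) ∧ Nonempty (Z ≃L[ℝ] V) := by
  obtain ⟨k, hk, J, S, hS⟩ := exists_comp D hG hγ
  obtain ⟨W, V, h1, h2, h3, h4, h5⟩ := alg P (Mo e k hk) J hP S hS
    (LinearMap.ker (Mo e k hk).toLinearMap) (fun x => LinearMap.mem_ker) Y Z hY hZ
  exact ⟨k, hk, W, V, h1, h2, h3, h4, h5⟩

/-- **The unconditional core theorem.** -/
theorem core (D : Dat e) (Y Z : Submodule ℝ X) (hYc : IsClosed (Y : Set X))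
    (hZc : IsClosed (Z : Set X)) (hYZ : IsCompl Y Z) :
    ∃ (k : ℕ → ℕ) (hk : StrictMono k) (W V : Submodule ℝ (LinearMap.ker (Mo e k hk).toLinearMap)),
      IsClosed (W : Set (LinearMap.ker (Mo e k hk).toLinearMap)) ∧
      IsClosed (V : Set (LinearMap.ker (Mo e k hk).toLinearMap)) ∧ IsCompl W V ∧
      ((Nonempty (Y ≃L[ℝ] X × W) ∧ Nonempty (Z ≃L[ℝ] V)) ∨
        (Nonempty (Z ≃L[ℝ] X × W) ∧ Nonempty (Y ≃L[ℝ] V))) := by
  have hT : Submodule.IsTopCompl Y Z := Submodule.IsCompl.isTopCompl_of_isClosed hYZ hYc hZc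
  obtain ⟨P, hP⟩ : ∃ P : X →L[ℝ] X, P = Y.subtypeL.comp (Y.projectionOntoL Z hT) := ⟨_, rfl⟩
  have hPx : ∀ x, P x = (Y.projectionOnto Z hYZ x : X) := by
    intro x
    rw [hP]
    rfl
  have hPY : ∀ x, P x ∈ Y := by intro x; rw [hPx]; exact Submodule.coe_mem _
  have hPid : ∀ x, x ∈ Y → P x = x := by
    intro x hx
    rw [hPx, Submodule.projectionOnto_apply_of_mem_left hYZ hx]
  have hY : ∀ x, x ∈ Y ↔ P x = x := fun x => ⟨hPid x, fun h => by rw [← h]; exact hPY x⟩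
  have hZ : ∀ x, x ∈ Z ↔ P x = 0 := by
    intro x
    rw [hPx, ← Submodule.projectionOnto_apply_eq_zero_iff hYZ]
    exact ⟨fun h => by rw [h]; rfl, fun h => Subtype.ext h⟩
  have hPP : ∀ x, P (P x) = P x := fun x => hPid _ (hPY x)
  obtain ⟨γ, hγ⟩ := exists_isG D P
  rcases le_or_gt (1 / 2) |γ| with h | h
  · obtain ⟨k, hk, W, V, h1, h2, h3, h4, h5⟩ := core_proj D hγ h hPP Y Z hY hZ
    exact ⟨k, hk, W, V, h1, h2, h3, Or.inl ⟨h4, h5⟩⟩
  · have hQ : ∀ x, (1 - P) x = x - P x := fun x => rfl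
    have h' : 1 / 2 ≤ |1 - γ| := by
      have h1 := (abs_lt.1 h).2
      rw [le_abs]
      left
      linarith
    obtain ⟨k, hk, W, V, h1, h2, h3, h4, h5⟩ := core_proj D (IsG.one_sub D hγ) h'
      (fun x => by rw [hQ, hQ, map_sub, hPP, sub_self, sub_zero]) Z Y
      (fun x => by
        rw [hZ, hQ]
        exact ⟨fun h => by rw [h, sub_zero], fun h => by
          have h2 : P x = x - (x - P x) := by abel
          rw [h2, h, sub_self]⟩)
      (fun x => by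
        rw [hY, hQ]
        exact ⟨fun h => by rw [h, sub_self], fun h => (sub_eq_zero.1 h).symm⟩)
    exact ⟨k, hk, W, V, h1, h2, h3, Or.inr ⟨h4, h5⟩⟩

end Pool.Agent.Lib.MP_15d71b_an.Sq
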